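import Mathlib

open Metric Set

namespace Pool.H30.CPJ.OldBall

/-- The cone `C(K,x) = {x + l (y - x) : y ∈ K, l ≥ 0}` with apex `x` generated by `K`. -/
def cone {n : ℕ} (K : Set (EuclideanSpace ℝ (Fin n))) (x : EuclideanSpace ℝ (Fin n)) :
    Set (EuclideanSpace ℝ (Fin n)) :=
  {z | ∃ y ∈ K, ∃ l : ℝ, 0 ≤ l ∧ z = x + l • (y - x)}

/-- The central projection `C(K,x) ∩ x^⊥` of `K` from `x`. -/
def centralProj {n : ℕ} (K : Set (EuclideanSpace ℝ (Fin n))) (x : EuclideanSpace ℝ (Fin n)) :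
    Set (EuclideanSpace ℝ (Fin n)) :=
  cone K x ∩ {z | inner ℝ z x = 0}

/-- Membership in the central projection of the ellipsoid `T (closed unit ball)` from a unit
vector `x`, as a quadratic inequality. -/
lemma mem_centralProj_iff {n : ℕ}
    (T : EuclideanSpace ℝ (Fin n) ≃L[ℝ] EuclideanSpace ℝ (Fin n))
    (hT : T '' closedBall 0 1 ⊆ ball 0 1) (x : EuclideanSpace ℝ (Fin n)) (hx : ‖x‖ = 1)
    (z : EuclideanSpace ℝ (Fin n)) :
    z ∈ centralProj (T '' closedBall 0 1) x ↔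
      inner ℝ z x = 0 ∧
        (‖T.symm x‖ ^ 2 - 1) * ‖T.symm z - T.symm x‖ ^ 2
          ≤ (inner ℝ (T.symm x) (T.symm z - T.symm x)) ^ 2 := by
  set a := T.symm x with ha
  have hxx : inner ℝ x x = (1 : ℝ) := by rw [real_inner_self_eq_norm_sq, hx]; norm_num
  constructor
  · rintro ⟨⟨y, ⟨b, hb, rfl⟩, l, hl, hz⟩, hzx⟩
    refine ⟨hzx, ?_⟩
    have hzx' : inner ℝ z x = 0 := hzx
    have hl0 : l ≠ 0 := by
      rintro rfl
      rw [zero_smul, add_zero] at hz
      rw [hz, hxx] at hzx'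
      exact one_ne_zero hzx'
    have hd : T.symm z - a = l • (b - a) := by
      rw [hz, map_add, map_smul, map_sub, T.symm_apply_apply, ← ha]
      abel
    have hb1 : ‖b‖ ≤ 1 := by simpa using hb
    have hb2 : ‖b‖ ^ 2 ≤ 1 := by
      have := norm_nonneg b
      nlinarith
    rw [hd, norm_smul, inner_smul_right]
    have e1 : ‖b - a‖ ^ 2 = ‖b‖ ^ 2 - 2 * inner ℝ b a + ‖a‖ ^ 2 := norm_sub_sq_real b a
    have e2 : inner ℝ a (b - a) = inner ℝ b a - ‖a‖ ^ 2 := by
      rw [inner_sub_right, real_inner_self_eq_norm_sq, real_inner_comm]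
    have e3 : ‖l‖ ^ 2 = l ^ 2 := by rw [Real.norm_eq_abs, sq_abs]
    rw [mul_pow, e3, mul_pow, e2, e1]
    -- Cauchy-Schwarz is not needed: use the nonnegativity of a square
    have hcs : (inner ℝ b a) ^ 2 ≤ ‖b‖ ^ 2 * ‖a‖ ^ 2 := by
      have := real_inner_mul_inner_self_le b a
      rw [real_inner_self_eq_norm_sq, real_inner_self_eq_norm_sq] at this
      nlinarith
    set s := inner ℝ b a with hs
    set B := ‖b‖ ^ 2 with hB
    set A := ‖a‖ ^ 2 with hA
    have hA0 : 0 ≤ A := by positivity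
    have hB0 : 0 ≤ B := by positivity
    have key : (A - 1) * (B - 2 * s + A) ≤ (s - A) ^ 2 := by
      -- (s - A)^2 - (A-1)(B-2s+A) = (s-1)^2 + (1 - B)(A - 1)
      rcases le_total 1 A with h | h
      · nlinarith [sq_nonneg (s - 1), mul_nonneg (sub_nonneg.2 hb2) (sub_nonneg.2 h)]
      · have h1 : 0 ≤ B - 2 * s + A := by
          have := norm_sub_sq_real b a
          have h2 : 0 ≤ ‖b - a‖ ^ 2 := by positivity
          rw [this] at h2
          exact h2
        nlinarith [sq_nonneg (s - A), mul_nonneg (sub_nonneg.2 h) h1]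
    nlinarith [mul_le_mul_of_nonneg_left key (sq_nonneg l)]
  · rintro ⟨hzx, hq⟩
    set d := T.symm z - a with hd
    have hdne : d ≠ 0 := by
      intro h0
      have h1 : T.symm z = a := by rwa [hd, sub_eq_zero] at h0
      have h2 : z = x := by
        rw [ha] at h1
        exact T.symm.injective h1
      rw [h2, hxx] at hzx
      exact one_ne_zero hzx
    have hd0 : 0 < ‖d‖ ^ 2 := by positivity
    set m := - inner ℝ a d / ‖d‖ ^ 2 with hm
    have hnorm : ‖a + m • d‖ ^ 2 ≤ 1 := by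
      rw [norm_add_sq_real, inner_smul_right, norm_smul, mul_pow, Real.norm_eq_abs, sq_abs]
      have e1 : m * ‖d‖ ^ 2 = - inner ℝ a d := by
        rw [hm]; field_simp
      have e2 : m ^ 2 * ‖d‖ ^ 2 = - m * inner ℝ a d := by
        calc m ^ 2 * ‖d‖ ^ 2 = m * (m * ‖d‖ ^ 2) := by ring
          _ = - m * inner ℝ a d := by rw [e1]; ring
      rw [e2]
      have e3 : m * inner ℝ a d = - (inner ℝ a d) ^ 2 / ‖d‖ ^ 2 := by
        rw [hm]; ring
      have e4 : (‖a‖ ^ 2 - 1) ≤ (inner ℝ a d) ^ 2 / ‖d‖ ^ 2 := by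
        rw [le_div_iff₀ hd0]; exact hq
      have e5 : -(inner ℝ a d) ^ 2 / ‖d‖ ^ 2 = - ((inner ℝ a d) ^ 2 / ‖d‖ ^ 2) := by ring
      rw [e5] at e3
      nlinarith
    have hnorm1 : ‖a + m • d‖ ≤ 1 := by
      have := norm_nonneg (a + m • d)
      nlinarith
    have hmem : T (a + m • d) ∈ T '' closedBall 0 1 := ⟨_, by simpa using hnorm1, rfl⟩
    have hTd : T (a + m • d) = x + m • (z - x) := by
      rw [map_add, map_smul, hd, map_sub, ha, T.apply_symm_apply, T.apply_symm_apply]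
    have hlt : ‖T (a + m • d)‖ < 1 := by simpa using hT hmem
    have hin : inner ℝ (T (a + m • d)) x = 1 - m := by
      rw [hTd, inner_add_left, inner_smul_left, inner_sub_left, hxx, hzx]
      simp
      ring
    have hlt2 : inner ℝ (T (a + m • d)) x < (1 : ℝ) := by
      calc inner ℝ (T (a + m • d)) x ≤ ‖T (a + m • d)‖ * ‖x‖ := real_inner_le_norm _ _
        _ < 1 := by rw [hx, mul_one]; exact hlt
    have hmpos : 0 < m := by rw [hin] at hlt2; linarith
    refine ⟨⟨_, hmem, m⁻¹, by positivity, ?_⟩, hzx⟩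
    rw [hTd]
    have : x + m • (z - x) - x = m • (z - x) := by abel
    rw [this, smul_smul, inv_mul_cancel₀ hmpos.ne', one_smul]
    abel

/-- For an origin-centred ellipsoid inside the open unit ball the central projections from
antipodal points of the unit sphere are translates of each other. -/
lemma ellipsoid_translate {n : ℕ}
    (T : EuclideanSpace ℝ (Fin n) ≃L[ℝ] EuclideanSpace ℝ (Fin n))
    (hT : T '' closedBall 0 1 ⊆ ball 0 1) (x : EuclideanSpace ℝ (Fin n)) (hx : ‖x‖ = 1) :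
    ∃ v : EuclideanSpace ℝ (Fin n), inner ℝ v x = 0 ∧
      centralProj (T '' closedBall 0 1) (-x)
        = (fun z => z + v) '' centralProj (T '' closedBall 0 1) x := by
  have hxx : inner ℝ x x = (1 : ℝ) := by rw [real_inner_self_eq_norm_sq, hx]; norm_num
  set Tc : EuclideanSpace ℝ (Fin n) →L[ℝ] EuclideanSpace ℝ (Fin n) :=
    T.toContinuousLinearMap with hTc
  set p := ContinuousLinearMap.adjoint Tc x with hp
  have hadj : ∀ w, inner ℝ w p = inner ℝ (T w) x := by
    intro w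
    rw [hp, ContinuousLinearMap.adjoint_inner_right]
    rfl
  have hq1 : ‖p‖ ^ 2 < 1 := by
    by_cases h0 : p = 0
    · rw [h0]; simp
    · have hpn : 0 < ‖p‖ := norm_pos_iff.2 h0
      have hb : ‖(‖p‖⁻¹ • p)‖ ≤ 1 := by
        rw [norm_smul, norm_inv, norm_norm, inv_mul_cancel₀ hpn.ne']
      have hmem : T (‖p‖⁻¹ • p) ∈ T '' closedBall 0 1 := ⟨_, by simpa using hb, rfl⟩
      have hlt : ‖T (‖p‖⁻¹ • p)‖ < 1 := by simpa using hT hmem
      have h1 : inner ℝ (‖p‖⁻¹ • p) p = ‖p‖ := by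
        rw [inner_smul_left, real_inner_self_eq_norm_sq]
        simp
        field_simp
      have h2 : ‖p‖ < 1 := by
        calc ‖p‖ = inner ℝ (‖p‖⁻¹ • p) p := h1.symm
          _ = inner ℝ (T (‖p‖⁻¹ • p)) x := hadj _
          _ ≤ ‖T (‖p‖⁻¹ • p)‖ * ‖x‖ := real_inner_le_norm _ _
          _ < 1 := by rw [hx, mul_one]; exact hlt
      nlinarith
  set q := ‖p‖ ^ 2 with hq
  have hpp : inner ℝ p p = q := by rw [real_inner_self_eq_norm_sq]
  have h1q : (1 : ℝ) - q ≠ 0 := by linarith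
  set a := T.symm x with ha
  have hap : inner ℝ a p = (1 : ℝ) := by rw [hadj, ha, T.apply_symm_apply, hxx]
  set al := 2 * q / (1 - q) with hal
  set be := -2 / (1 - q) with hbe
  set nu := al • a + be • p with hnu
  have hvx : inner ℝ (T nu) x = 0 := by
    rw [← hadj, hnu, inner_add_left, inner_smul_left, inner_smul_left, hap, hpp]
    simp only [conj_trivial]
    rw [hal, hbe]
    field_simp
    ring
  refine ⟨T nu, hvx, ?_⟩
  have hmx : ‖-x‖ = 1 := by rw [norm_neg, hx]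
  have main : ∀ z, inner ℝ z x = 0 →
      ((‖T.symm (-x)‖ ^ 2 - 1) * ‖T.symm (z + T nu) - T.symm (-x)‖ ^ 2
          ≤ (inner ℝ (T.symm (-x)) (T.symm (z + T nu) - T.symm (-x))) ^ 2 ↔
        (‖T.symm x‖ ^ 2 - 1) * ‖T.symm z - T.symm x‖ ^ 2
          ≤ (inner ℝ (T.symm x) (T.symm z - T.symm x)) ^ 2) := by
    intro z hz
    rw [map_neg, map_add, T.symm_apply_apply, ← ha, norm_neg]
    set ζ := T.symm z with hζ
    have hζp : inner ℝ ζ p = 0 := by rw [hadj, hζ, T.apply_symm_apply, hz]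
    have e0 : ζ + nu - -a = ζ + ((1 + al) • a + be • p) := by
      rw [hnu, add_smul, one_smul]; abel
    have haa : inner ℝ a a = ‖a‖ ^ 2 := real_inner_self_eq_norm_sq a
    have hζa : inner ℝ ζ a = inner ℝ a ζ := real_inner_comm _ _
    have hpa : inner ℝ p a = (1 : ℝ) := by rw [real_inner_comm]; exact hap
    have e1 : ‖ζ + nu - -a‖ ^ 2 = ‖ζ‖ ^ 2 + (1 + al) ^ 2 * ‖a‖ ^ 2 + be ^ 2 * q
        + 2 * (1 + al) * inner ℝ a ζ + 2 * (1 + al) * be := by
      rw [e0, norm_add_sq_real, inner_add_right, inner_smul_right, inner_smul_right, hζp,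
        norm_add_sq_real, inner_smul_left, inner_smul_right, hap, norm_smul, norm_smul,
        mul_pow, mul_pow, Real.norm_eq_abs, Real.norm_eq_abs, sq_abs, sq_abs, hζa]
      simp only [conj_trivial]
      ring
    have e2 : inner ℝ (-a) (ζ + nu - -a) = -(inner ℝ a ζ + (1 + al) * ‖a‖ ^ 2 + be) := by
      rw [e0, inner_neg_left, inner_add_right, inner_add_right, inner_smul_right,
        inner_smul_right, haa, hap]
      ring
    have e3 : ‖ζ - a‖ ^ 2 = ‖ζ‖ ^ 2 - 2 * inner ℝ a ζ + ‖a‖ ^ 2 := by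
      rw [norm_sub_sq_real, hζa]
    have e4 : inner ℝ a (ζ - a) = inner ℝ a ζ - ‖a‖ ^ 2 := by
      rw [inner_sub_right, haa]
    rw [e1, e2, e3, e4]
    set s := inner ℝ a ζ
    set A := ‖a‖ ^ 2
    set Z := ‖ζ‖ ^ 2
    have id1 : (A - 1) * (Z + (1 + al) ^ 2 * A + be ^ 2 * q + 2 * (1 + al) * s
          + 2 * (1 + al) * be) - (-(s + (1 + al) * A + be)) ^ 2
        = (A - 1) * (Z - 2 * s + A) - (s - A) ^ 2 := by
      rw [hal, hbe]
      field_simp
      ring
    constructor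
    · intro h; linarith
    · intro h; linarith
  ext w
  constructor
  · intro hw
    have hw' := (mem_centralProj_iff T hT (-x) hmx w).1 hw
    have hwx : inner ℝ w x = 0 := by
      have := hw'.1
      rw [inner_neg_right, neg_eq_zero] at this
      exact this
    have hzx : inner ℝ (w - T nu) x = 0 := by rw [inner_sub_left, hwx, hvx, sub_zero]
    refine ⟨w - T nu, ?_, by simp⟩
    rw [mem_centralProj_iff T hT x hx]
    refine ⟨hzx, ?_⟩
    rw [← main (w - T nu) hzx]
    simpa using hw'.2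
  · rintro ⟨z, hz, rfl⟩
    have hz' := (mem_centralProj_iff T hT x hx z).1 hz
    change z + T nu ∈ _
    rw [mem_centralProj_iff T hT (-x) hmx]
    refine ⟨?_, (main z hz'.1).2 hz'.2⟩
    rw [inner_neg_right, inner_add_left, hz'.1, hvx]
    simp

/-- The diagonal map with first entry `1/2` and the others `1/4`. -/
noncomputable def diagMap (n : ℕ) (i₀ : Fin n) :
    EuclideanSpace ℝ (Fin n) ≃ₗ[ℝ] EuclideanSpace ℝ (Fin n) :=
  (WithLp.linearEquiv 2 ℝ (Fin n → ℝ)).trans
    ((LinearEquiv.piCongrRight fun i =>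
      LinearEquiv.smulOfNeZero ℝ ℝ (if i = i₀ then (1 / 2 : ℝ) else (1 / 4 : ℝ))
        (by split_ifs <;> norm_num)).trans
      (WithLp.linearEquiv 2 ℝ (Fin n → ℝ)).symm)

lemma diagMap_apply (n : ℕ) (i₀ : Fin n) (y : EuclideanSpace ℝ (Fin n)) (i : Fin n) :
    diagMap n i₀ y i = (if i = i₀ then (1 / 2 : ℝ) else (1 / 4 : ℝ)) * y i := by
  simp [diagMap]

lemma diagMap_norm_le (n : ℕ) (i₀ : Fin n) (y : EuclideanSpace ℝ (Fin n)) :
    ‖diagMap n i₀ y‖ ≤ (1 / 2) * ‖y‖ := by
  rw [EuclideanSpace.norm_eq, EuclideanSpace.norm_eq]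
  have h1 : (1 / 2 : ℝ) * √(∑ i, ‖y i‖ ^ 2) = √(∑ i, ((1 / 2) * ‖y i‖) ^ 2) := by
    have : ∑ i, ((1 / 2) * ‖y i‖) ^ 2 = (1 / 2) ^ 2 * ∑ i, ‖y i‖ ^ 2 := by
      rw [Finset.mul_sum]; exact Finset.sum_congr rfl fun i _ => by ring
    rw [this, Real.sqrt_mul (by positivity), Real.sqrt_sq (by norm_num)]
  rw [h1]
  apply Real.sqrt_le_sqrt
  apply Finset.sum_le_sum
  intro i _
  rw [diagMap_apply, norm_mul]
  have h2 : ‖(if i = i₀ then (1 / 2 : ℝ) else (1 / 4 : ℝ))‖ ≤ 1 / 2 := by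
    split_ifs <;> norm_num
  have h3 := norm_nonneg (y i)
  exact pow_le_pow_left₀ (by positivity) (mul_le_mul_of_nonneg_right h2 h3) 2

/-- In every dimension `n ≥ 2`, every origin-centred ellipsoid in the open unit ball satisfies
the hypothesis in its strong (translation) form, and some such ellipsoid is not a ball. -/
theorem result (n : ℕ) (hn : 2 ≤ n) :
    (∀ T : EuclideanSpace ℝ (Fin n) ≃L[ℝ] EuclideanSpace ℝ (Fin n),
      T '' closedBall 0 1 ⊆ ball 0 1 →
        ∀ x : EuclideanSpace ℝ (Fin n), ‖x‖ = 1 →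
          ∃ v : EuclideanSpace ℝ (Fin n), inner ℝ v x = 0 ∧
            centralProj (T '' closedBall 0 1) (-x)
              = (fun z => z + v) '' centralProj (T '' closedBall 0 1) x) ∧
    ∃ K : Set (EuclideanSpace ℝ (Fin n)),
      Convex ℝ K ∧ IsCompact K ∧ (interior K).Nonempty ∧ K ⊆ ball 0 1 ∧
      (∀ x : EuclideanSpace ℝ (Fin n), ‖x‖ = 1 →
        ∃ v : EuclideanSpace ℝ (Fin n), inner ℝ v x = 0 ∧
          centralProj K (-x) = (fun z => z + v) '' centralProj K x) ∧
      ¬ ∃ (c : EuclideanSpace ℝ (Fin n)) (r : ℝ), K = closedBall c r := by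
  refine ⟨fun T hT x hx => ellipsoid_translate T hT x hx, ?_⟩
  set i₀ : Fin n := ⟨0, by omega⟩ with hi₀
  set i₁ : Fin n := ⟨1, by omega⟩ with hi₁
  have h01 : i₁ ≠ i₀ := by
    intro h
    have := congrArg Fin.val h
    simp [hi₀, hi₁] at this
  set T : EuclideanSpace ℝ (Fin n) ≃L[ℝ] EuclideanSpace ℝ (Fin n) :=
    (diagMap n i₀).toContinuousLinearEquiv with hTdef
  have hTapp : ∀ y i, T y i = (if i = i₀ then (1 / 2 : ℝ) else (1 / 4 : ℝ)) * y i :=
    fun y i => diagMap_apply n i₀ y i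
  have hTn : ∀ y, ‖T y‖ ≤ (1 / 2) * ‖y‖ := fun y => diagMap_norm_le n i₀ y
  have hsub : T '' closedBall 0 1 ⊆ ball 0 1 := by
    rintro _ ⟨b, hb, rfl⟩
    have hb1 : ‖b‖ ≤ 1 := by simpa using hb
    have := hTn b
    rw [mem_ball, dist_zero_right]
    linarith
  refine ⟨T '' closedBall 0 1, ?_, ?_, ?_, hsub,
    fun x hx => ellipsoid_translate T hsub x hx, ?_⟩
  · exact (convex_closedBall (0 : EuclideanSpace ℝ (Fin n)) 1).linear_image
      (T.toLinearEquiv : EuclideanSpace ℝ (Fin n) →ₗ[ℝ] EuclideanSpace ℝ (Fin n))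
  · exact (isCompact_closedBall 0 1).image T.continuous
  · have h1 : T '' ball 0 1 ⊆ T '' closedBall 0 1 := image_mono ball_subset_closedBall
    have h2 : IsOpen (T '' ball 0 1) := T.toHomeomorph.isOpenMap _ isOpen_ball
    exact ⟨T 0, interior_maximal h1 h2 ⟨0, by simp, rfl⟩⟩
  · rintro ⟨c, r, hK⟩
    have hcoord : ∀ y ∈ T '' closedBall 0 1, |y i₁| ≤ 1 / 4 := by
      rintro _ ⟨b, hb, rfl⟩
      have hb1 : ‖b‖ ≤ 1 := by simpa using hb
      have hb2 : ‖b i₁‖ ≤ 1 := (PiLp.norm_apply_le b i₁).trans hb1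
      rw [hTapp, if_neg h01, abs_mul]
      rw [Real.norm_eq_abs] at hb2
      rw [abs_of_nonneg (by norm_num : (0 : ℝ) ≤ 1 / 4)]
      linarith
    have hP : T (EuclideanSpace.single i₀ 1) ∈ T '' closedBall 0 1 := ⟨_, by simp, rfl⟩
    have hP' : T (-EuclideanSpace.single i₀ 1) ∈ T '' closedBall 0 1 := ⟨_, by simp, rfl⟩
    have hd : dist (T (EuclideanSpace.single i₀ 1)) (T (-EuclideanSpace.single i₀ 1)) = 1 := by
      have e : T (EuclideanSpace.single i₀ 1) - T (-EuclideanSpace.single i₀ 1)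
          = EuclideanSpace.single i₀ 1 := by
        ext j
        rw [map_neg]
        simp only [PiLp.sub_apply, PiLp.neg_apply, hTapp]
        by_cases hj : j = i₀
        · subst hj; simp; norm_num
        · simp [hj]
      rw [dist_eq_norm, e]
      simp
    rw [hK] at hP hP'
    have hr : (1 : ℝ) ≤ 2 * r := by
      have h1 := dist_triangle_right (T (EuclideanSpace.single i₀ 1))
        (T (-EuclideanSpace.single i₀ 1)) c
      rw [hd] at h1
      rw [mem_closedBall] at hP hP'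
      linarith
    have hr0 : 0 ≤ r := by linarith
    have hQ : c + EuclideanSpace.single i₁ r ∈ closedBall c r := by
      rw [mem_closedBall, dist_eq_norm, add_sub_cancel_left, PiLp.norm_single,
        Real.norm_eq_abs, abs_of_nonneg hr0]
    have hQ' : c - EuclideanSpace.single i₁ r ∈ closedBall c r := by
      rw [mem_closedBall, dist_eq_norm, sub_sub_cancel_left, norm_neg,
        PiLp.norm_single, Real.norm_eq_abs, abs_of_nonneg hr0]
    rw [← hK] at hQ hQ'
    have h1 := hcoord _ hQ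
    have h2 := hcoord _ hQ'
    simp only [PiLp.add_apply, PiLp.sub_apply, PiLp.single_apply, if_true] at h1 h2
    rw [abs_le] at h1 h2
    linarith [h1.2, h2.1]

end Pool.H30.CPJ.OldBall
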