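import Pool.Agent.H42.K39.Plane

open Metric Set

namespace Pool.H30.CPJ.OldCentre

open Pool.Agent.H42.K39

/-! ### Statement-level definitions -/

/-- The Euclidean plane. -/
abbrev Plane : Type := EuclideanSpace ℝ (Fin 2)

/-- The cone `C(K,x) = {x + l (y - x) : y ∈ K, l ≥ 0}` with apex `x` generated by `K`. -/
def cone (K : Set Plane) (x : Plane) : Set Plane :=
  {z | ∃ y ∈ K, ∃ l : ℝ, 0 ≤ l ∧ z = x + l • (y - x)}

/-- The central projection `C(K,x) ∩ x^⊥` of `K` from `x`. -/
def centralProj (K : Set Plane) (x : Plane) : Set Plane :=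
  cone K x ∩ {z | inner ℝ z x = 0}

/-! ### The body -/

lemma inner_two (y x : Plane) : inner ℝ y x = y 0 * x 0 + y 1 * x 1 := by
  simp [PiLp.inner_apply, Fin.sum_univ_two]
  ring

lemma norm_sq_two (x : Plane) : ‖x‖ ^ 2 = x 0 ^ 2 + x 1 ^ 2 := by
  rw [EuclideanSpace.norm_sq_eq]
  simp [Fin.sum_univ_two]

/-- The body. -/
def body : Set Plane := {y | KK (y 0) (y 1)}

lemma body_disc {y : Plane} (hy : y ∈ body) : y 0 ^ 2 + y 1 ^ 2 < 1 :=
  disc_six (KK_six hy)

lemma body_ball : body ⊆ ball 0 1 := by
  intro y hy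
  rw [mem_ball_zero_iff]
  have h1 := norm_sq_two y
  have h2 := body_disc hy
  nlinarith [norm_nonneg y]

lemma body_convex : Convex ℝ body := by
  intro y hy z hz a b ha hb hab
  have := KK_convex hy hz ha hb hab
  simpa [body] using this

lemma body_closed : IsClosed body := by
  have hc0 : Continuous fun y : Plane => y 0 := by fun_prop
  have hc1 : Continuous fun y : Plane => y 1 := by fun_prop
  have hb : ∀ X U : ℝ, IsClosed {y : Plane | 0 ≤ bil (y 0) (y 1) X U} := by
    intro X U
    apply isClosed_le continuous_const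
    unfold bil
    fun_prop
  have hb' : ∀ X U : ℝ, IsClosed {y : Plane | 0 ≤ bil (-y 0) (-y 1) X U} := by
    intro X U
    apply isClosed_le continuous_const
    unfold bil
    fun_prop
  unfold body KK KP
  simp only [setOf_and, setOf_forall]
  apply IsClosed.inter
  · refine isClosed_iInter fun x => isClosed_iInter fun _ => isClosed_iInter fun _ => ?_
    exact (hb _ _).inter ((hb' _ _).inter (hb _ _))
  · refine isClosed_iInter fun x => isClosed_iInter fun _ => isClosed_iInter fun _ => ?_
    exact (hb' _ _).inter ((hb _ _).inter (hb' _ _))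

lemma body_compact : IsCompact body :=
  Metric.isCompact_of_isClosed_isBounded body_closed (isBounded_ball.subset body_ball)

lemma body_interior : (interior body).Nonempty := by
  refine ⟨0, mem_interior.2 ⟨ball 0 (1 / 10), ?_, isOpen_ball, by simp⟩⟩
  intro y hy
  rw [mem_ball_zero_iff] at hy
  have h1 := norm_sq_two y
  have h2 : ‖y‖ ^ 2 ≤ (1 / 10) ^ 2 := by
    have := norm_nonneg y
    nlinarith
  apply KK_small
  · apply abs_le_of_sq_le_sq _ (by norm_num)
    nlinarith [sq_nonneg (y 1)]
  · apply abs_le_of_sq_le_sq _ (by norm_num)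
    nlinarith [sq_nonneg (y 0)]

/-! ### The central projections -/

/-- The rotated vector. -/
noncomputable def rot (x : Plane) : Plane := !₂[-x 1, x 0]

lemma rot_zero (x : Plane) : rot x 0 = -x 1 := by simp [rot]
lemma rot_one (x : Plane) : rot x 1 = x 0 := by simp [rot]

lemma proj_image {x : Plane} (hx : ‖x‖ = 1) :
    centralProj body x = (fun y : Plane => FE (x 0) (x 1) (y 0) (y 1) • rot x) '' body := by
  have hx2 : x 0 ^ 2 + x 1 ^ 2 = 1 := by rw [← norm_sq_two, hx]; norm_num
  have hden : ∀ y ∈ body, 0 < 1 - (x 0 * y 0 + x 1 * y 1) := by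
    intro y hy
    have h1 := body_disc hy
    nlinarith [sq_nonneg (x 0 - y 0), sq_nonneg (x 1 - y 1)]
  have hpt : ∀ y ∈ body, x + (1 / (1 - (x 0 * y 0 + x 1 * y 1))) • (y - x) =
      FE (x 0) (x 1) (y 0) (y 1) • rot x := by
    intro y hy
    have hd := hden y hy
    have hd' := hd.ne'
    ext i
    fin_cases i
    · simp only [Fin.zero_eta, PiLp.add_apply, PiLp.smul_apply, PiLp.sub_apply, smul_eq_mul,
        rot_zero]
      unfold FE
      field_simp
      linear_combination (-y 0) * hx2
    · simp only [Fin.mk_one, PiLp.add_apply, PiLp.smul_apply, PiLp.sub_apply, smul_eq_mul,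
        rot_one]
      unfold FE
      field_simp
      linear_combination (-y 1) * hx2
  ext z
  constructor
  · rintro ⟨⟨y, hy, l, hl, rfl⟩, hz⟩
    refine ⟨y, hy, ?_⟩
    have hd := hden y hy
    have hz' : (x + l • (y - x)) 0 * x 0 + (x + l • (y - x)) 1 * x 1 = 0 := by
      rw [← inner_two]; exact hz
    simp only [PiLp.add_apply, PiLp.smul_apply, PiLp.sub_apply, smul_eq_mul] at hz'
    have hl' : l = 1 / (1 - (x 0 * y 0 + x 1 * y 1)) := by
      rw [eq_div_iff hd.ne']
      linear_combination (-1) * hz' + (1 - l) * hx2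
    simp only
    rw [hl', hpt y hy]
  · rintro ⟨y, hy, rfl⟩
    have hd := hden y hy
    refine ⟨⟨y, hy, 1 / (1 - (x 0 * y 0 + x 1 * y 1)), by positivity, ?_⟩, ?_⟩
    · exact (hpt y hy).symm
    · simp only [mem_setOf_eq]
      rw [inner_two]
      simp only [PiLp.smul_apply, smul_eq_mul, rot_zero, rot_one]
      ring

lemma proj_seg {x : Plane} (hx : ‖x‖ = 1) {lo hi : ℝ} (h1 : BotE KK (x 0) (x 1) lo)
    (h2 : TopE KK (x 0) (x 1) hi) :
    centralProj body x = (fun t : ℝ => t • rot x) '' Icc lo hi := by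
  have hx2 : x 0 ^ 2 + x 1 ^ 2 = 1 := by rw [← norm_sq_two, hx]; norm_num
  rw [proj_image hx]
  have himg : (fun y : Plane => FE (x 0) (x 1) (y 0) (y 1)) '' body = Icc lo hi := by
    apply Subset.antisymm
    · rintro _ ⟨y, hy, rfl⟩
      exact ⟨h1.1 _ _ hy, h2.1 _ _ hy⟩
    · have hpre : IsPreconnected body := body_convex.isPreconnected
      have hcont : ContinuousOn (fun y : Plane => FE (x 0) (x 1) (y 0) (y 1)) body := by
        unfold FE
        apply ContinuousOn.div
        · fun_prop
        · fun_prop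
        · intro y hy
          have h1 := body_disc hy
          have : 0 < 1 - (x 0 * y 0 + x 1 * y 1) := by
            nlinarith [sq_nonneg (x 0 - y 0), sq_nonneg (x 1 - y 1)]
          exact this.ne'
      have hoc := (hpre.image _ hcont).ordConnected
      obtain ⟨p, q, hpq, hF⟩ := h1.2
      obtain ⟨p', q', hpq', hF'⟩ := h2.2
      have m1 : lo ∈ (fun y : Plane => FE (x 0) (x 1) (y 0) (y 1)) '' body :=
        ⟨!₂[p, q], by simpa [body] using hpq, by simpa using hF⟩
      have m2 : hi ∈ (fun y : Plane => FE (x 0) (x 1) (y 0) (y 1)) '' body :=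
        ⟨!₂[p', q'], by simpa [body] using hpq', by simpa using hF'⟩
      exact hoc.out m1 m2
  rw [← himg, image_image]

lemma rot_neg (x : Plane) : rot (-x) = -rot x := by
  ext i
  fin_cases i <;> simp [rot]

lemma inner_rot (x : Plane) : inner ℝ (rot x) x = 0 := by
  rw [inner_two, rot_zero, rot_one]; ring

lemma translates {x : Plane} (hx : ‖x‖ = 1) :
    ∃ v : Plane, inner ℝ v x = 0 ∧
      centralProj body (-x) = (fun z => z + v) '' centralProj body x := by
  have hx2 : x 0 ^ 2 + x 1 ^ 2 = 1 := by rw [← norm_sq_two, hx]; norm_num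
  have hx' : ‖-x‖ = 1 := by rw [norm_neg, hx]
  obtain ⟨lo, hi, lo', hi', e, h1, h2, h3, h4⟩ := WE_all hx2
  have h3' : BotE KK ((-x) 0) ((-x) 1) lo' := by
    obtain ⟨a1, p, q, a2, a3⟩ := h3
    constructor
    · intro p q hpq
      simp only [PiLp.neg_apply]
      rw [FE_neg]
      exact a1 _ _ (NK_of_KK hpq)
    · refine ⟨-p, -q, KK_of_NK a2, ?_⟩
      simp only [PiLp.neg_apply]
      rw [FE_neg, neg_neg, neg_neg, a3]
  have h4' : TopE KK ((-x) 0) ((-x) 1) hi' := by
    obtain ⟨a1, p, q, a2, a3⟩ := h4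
    constructor
    · intro p q hpq
      simp only [PiLp.neg_apply]
      rw [FE_neg]
      exact a1 _ _ (NK_of_KK hpq)
    · refine ⟨-p, -q, KK_of_NK a2, ?_⟩
      simp only [PiLp.neg_apply]
      rw [FE_neg, neg_neg, neg_neg, a3]
  refine ⟨(-hi' - lo) • rot x, ?_, ?_⟩
  · rw [inner_smul_left, inner_rot, mul_zero]
  · rw [proj_seg hx' h3' h4', proj_seg hx h1 h2, image_image]
    ext z
    constructor
    · rintro ⟨t, ⟨t1, t2⟩, rfl⟩
      refine ⟨-t - (-hi' - lo), ⟨by linarith, by linarith⟩, ?_⟩
      simp only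
      rw [← add_smul, rot_neg, smul_neg, ← neg_smul]
      congr 1
      ring
    · rintro ⟨t, ⟨t1, t2⟩, rfl⟩
      refine ⟨-(t + (-hi' - lo)), ⟨by linarith, by linarith⟩, ?_⟩
      simp only
      rw [← add_smul, rot_neg, smul_neg, ← neg_smul]
      congr 1
      ring

/-! ### The result -/

/-- There is a planar convex body in the open unit disc which has no centre of symmetry, although
its central projections from any two antipodal points of the unit circle are translates of each
other; in particular they are congruent and have the same length. -/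
theorem result : ∃ K : Set Plane,
    Convex ℝ K ∧ IsCompact K ∧ (interior K).Nonempty ∧ K ⊆ ball (0 : Plane) 1 ∧
    (∀ x : Plane, ‖x‖ = 1 →
      (∃ v : Plane, inner ℝ v x = 0 ∧
        centralProj K (-x) = (fun z => z + v) '' centralProj K x) ∧
      MeasureTheory.Measure.hausdorffMeasure 1 (centralProj K (-x)) =
        MeasureTheory.Measure.hausdorffMeasure 1 (centralProj K x)) ∧
    ¬ ∃ c : Plane, ∀ y : Plane, y ∈ K ↔ (2 : ℝ) • c - y ∈ K := by
  refine ⟨body, body_convex, body_compact, body_interior, body_ball, ?_, ?_⟩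
  · intro x hx
    refine ⟨translates hx, ?_⟩
    obtain ⟨v, _, hv⟩ := translates hx
    rw [hv]
    exact (IsometryEquiv.addRight v).hausdorffMeasure_image 1 _
  · rintro ⟨c, hc⟩
    apply no_centre (c 0) (c 1)
    intro p q
    have := hc !₂[p, q]
    simpa [body] using this

end Pool.H30.CPJ.OldCentre
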