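import Mathlib

open Metric Set Filter Topology

namespace Pool.H30.CPJ.OldSym

/-! ### Statement-level definitions -/

/-- The cone `C(K,x) = {x + l (y - x) : y ∈ K, l ≥ 0}` with apex `x` generated by `K`. -/
def cone {n : ℕ} (K : Set (EuclideanSpace ℝ (Fin n))) (x : EuclideanSpace ℝ (Fin n)) :
    Set (EuclideanSpace ℝ (Fin n)) :=
  {z | ∃ y ∈ K, ∃ l : ℝ, 0 ≤ l ∧ z = x + l • (y - x)}

/-- The central projection `C(K,x) ∩ x^⊥` of `K` from `x`. -/
def centralProj {n : ℕ} (K : Set (EuclideanSpace ℝ (Fin n))) (x : EuclideanSpace ℝ (Fin n)) :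
    Set (EuclideanSpace ℝ (Fin n)) :=
  cone K x ∩ {z | inner ℝ z x = 0}

/-- The width of `S` in the direction `w`: the length of the image of `S` under `⟪·, w⟫`. -/
noncomputable def width {n : ℕ} (S : Set (EuclideanSpace ℝ (Fin n)))
    (w : EuclideanSpace ℝ (Fin n)) : ℝ :=
  sSup ((fun z => (inner ℝ z w : ℝ)) '' S) - sInf ((fun z => (inner ℝ z w : ℝ)) '' S)

/-! ### Support functions -/

section Abstract

variable {V : Type*} [NormedAddCommGroup V] [InnerProductSpace ℝ V]

/-- The support function. -/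
noncomputable def supp (K : Set V) (u : V) : ℝ := sSup ((fun y => (inner ℝ y u : ℝ)) '' K)

/-- The support function of the central projection. -/
noncomputable def aper (K : Set V) (d : ℝ) (x w : V) : ℝ :=
  sSup ((fun y => (inner ℝ y w : ℝ) / max d (1 - inner ℝ y x)) '' K)

/-- The data used in the proof. -/
structure Data (K : Set V) (d : ℝ) : Prop where
  cpt : IsCompact K
  ne : K.Nonempty
  dpos : 0 < d
  bd : ∀ y ∈ K, ‖y‖ ≤ 1 - d
  wid : ∀ u, u ≠ 0 → 0 < supp K u + supp K (-u)

variable {K : Set V} {d : ℝ}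

lemma supp_le (D : Data K d) (u : V) {y : V} (hy : y ∈ K) : inner ℝ y u ≤ supp K u :=
  le_csSup (D.cpt.image (f := fun y => (inner ℝ y u : ℝ)) (by fun_prop)).bddAbove ⟨y, hy, rfl⟩

lemma supp_att (D : Data K d) (u : V) : ∃ y ∈ K, supp K u = inner ℝ y u := by
  obtain ⟨y, hy, h⟩ := D.cpt.exists_sSup_image_eq D.ne
    (f := fun y => (inner ℝ y u : ℝ)) (by fun_prop)
  exact ⟨y, hy, h⟩

lemma supp_smul (D : Data K d) {t : ℝ} (ht : 0 ≤ t) (u : V) : supp K (t • u) = t * supp K u := by
  obtain ⟨y, hy, h⟩ := supp_att D u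
  obtain ⟨z, hz, h'⟩ := supp_att D (t • u)
  apply le_antisymm
  · rw [h', inner_smul_right]
    exact mul_le_mul_of_nonneg_left (supp_le D u hz) ht
  · rw [h, ← inner_smul_right]
    exact supp_le D _ hy

lemma supp_cont (D : Data K d) : Continuous (supp K) := by
  unfold supp
  exact D.cpt.continuous_sSup (f := fun u y => (inner ℝ y u : ℝ)) (by fun_prop)

lemma norm_lt (D : Data K d) {y : V} (hy : y ∈ K) : ‖y‖ < 1 := by
  have := D.bd y hy
  have := D.dpos
  linarith

lemma supp_abs_lt (D : Data K d) {u : V} (hu : ‖u‖ = 1) : |supp K u| < 1 := by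
  obtain ⟨y, hy, h⟩ := supp_att D u
  rw [h]
  have h1 := abs_real_inner_le_norm y u
  rw [hu, mul_one] at h1
  exact h1.trans_lt (norm_lt D hy)

lemma den_eq (D : Data K d) {x : V} (hx : ‖x‖ = 1) {y : V} (hy : y ∈ K) :
    max d (1 - inner ℝ y x) = 1 - inner ℝ y x := by
  apply max_eq_right
  have h1 := real_inner_le_norm y x
  rw [hx, mul_one] at h1
  have h2 := D.bd y hy
  linarith

lemma den_pos (D : Data K d) {x : V} (hx : ‖x‖ = 1) {y : V} (hy : y ∈ K) :
    0 < 1 - (inner ℝ y x : ℝ) := by
  rw [← den_eq D hx hy]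
  exact lt_max_of_lt_left D.dpos

lemma aper_cont (D : Data K d) : Continuous (fun p : V × V => aper K d p.1 p.2) := by
  unfold aper
  apply D.cpt.continuous_sSup
    (f := fun (p : V × V) y => (inner ℝ y p.2 : ℝ) / max d (1 - inner ℝ y p.1))
  apply Continuous.div
  · fun_prop
  · fun_prop
  · intro q
    exact (lt_max_of_lt_left D.dpos).ne'

lemma aper_cont_on (D : Data K d) (x w : V) :
    ContinuousOn (fun y => (inner ℝ y w : ℝ) / max d (1 - inner ℝ y x)) K := by
  apply Continuous.continuousOn
  apply Continuous.div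
  · fun_prop
  · fun_prop
  · intro q
    exact (lt_max_of_lt_left D.dpos).ne'

lemma aper_le (D : Data K d) {x : V} (hx : ‖x‖ = 1) (w : V) {y : V} (hy : y ∈ K) :
    inner ℝ y w / (1 - inner ℝ y x) ≤ aper K d x w := by
  rw [← den_eq D hx hy]
  exact le_csSup (D.cpt.image_of_continuousOn (aper_cont_on D x w)).bddAbove ⟨y, hy, rfl⟩

lemma aper_att (D : Data K d) {x : V} (hx : ‖x‖ = 1) (w : V) :
    ∃ y ∈ K, aper K d x w = inner ℝ y w / (1 - inner ℝ y x) := by
  obtain ⟨y, hy, h⟩ := D.cpt.exists_sSup_image_eq D.ne (aper_cont_on D x w)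
  refine ⟨y, hy, ?_⟩
  rw [← den_eq D hx hy]
  exact h

lemma supp_aper (D : Data K d) {x : V} (hx : ‖x‖ = 1) (w : V) :
    supp K (aper K d x w • x + w) = aper K d x w := by
  apply le_antisymm
  · obtain ⟨y, hy, h⟩ := supp_att D (aper K d x w • x + w)
    rw [h, inner_add_right, inner_smul_right]
    have h1 := aper_le D hx w hy
    rw [div_le_iff₀ (den_pos D hx hy)] at h1
    linarith
  · obtain ⟨y, hy, h⟩ := aper_att D hx w
    have h1 := supp_le D (aper K d x w • x + w) hy
    rw [inner_add_right, inner_smul_right] at h1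
    rw [eq_div_iff (den_pos D hx hy).ne'] at h
    linarith

lemma aper_eq (D : Data K d) {x : V} (hx : ‖x‖ = 1) (w : V) {t : ℝ}
    (ht : supp K (t • x + w) = t) : aper K d x w = t := by
  apply le_antisymm
  · obtain ⟨y, hy, h⟩ := aper_att D hx w
    rw [h, div_le_iff₀ (den_pos D hx hy)]
    have h1 := supp_le D (t • x + w) hy
    rw [inner_add_right, inner_smul_right, ht] at h1
    linarith
  · obtain ⟨y, hy, h⟩ := supp_att D (t • x + w)
    rw [ht, inner_add_right, inner_smul_right] at h
    refine le_trans ?_ (aper_le D hx w hy)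
    rw [le_div_iff₀ (den_pos D hx hy)]
    linarith

/-- The odd part of the support function. -/
noncomputable def odd (K : Set V) (u : V) : ℝ := supp K u - supp K (-u)

lemma odd_cont (D : Data K d) : Continuous (odd K) :=
  (supp_cont D).sub ((supp_cont D).comp continuous_neg)

lemma odd_neg (u : V) : odd K (-u) = - odd K u := by
  unfold odd; rw [neg_neg]; ring

lemma odd_smul_nonneg (D : Data K d) {t : ℝ} (ht : 0 ≤ t) (u : V) :
    odd K (t • u) = t * odd K u := by
  unfold odd
  rw [← smul_neg, supp_smul D ht, supp_smul D ht]; ring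

lemma odd_smul (D : Data K d) (t : ℝ) (u : V) : odd K (t • u) = t * odd K u := by
  rcases le_total 0 t with h | h
  · exact odd_smul_nonneg D h u
  · have h1 := odd_smul_nonneg D (neg_nonneg.2 h) u
    rw [neg_smul, odd_neg] at h1
    linarith

lemma odd_zero_iff (D : Data K d) {x : V} (hx : ‖x‖ = 1) (w : V) :
    odd K (aper K d x w • x + w) = 0 ↔ aper K d x w = aper K d (-x) (-w) := by
  have hx' : ‖-x‖ = 1 := by rw [norm_neg, hx]
  have e : ∀ t : ℝ, -(t • x + w) = t • (-x) + -w := by intro t; rw [smul_neg]; abel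
  unfold odd
  rw [supp_aper D hx, e]
  constructor
  · intro h
    exact (aper_eq D hx' (-w) (by linarith)).symm
  · intro h
    have h1 := supp_aper D hx' (-w)
    rw [← h] at h1
    rw [h1, sub_self]

/-- The hypothesis on widths in terms of `aper`. -/
def Wid (K : Set V) (d : ℝ) : Prop :=
  ∀ x w : V, ‖x‖ = 1 → ‖w‖ = 1 → inner ℝ w x = (0 : ℝ) →
    aper K d x w + aper K d x (-w) = aper K d (-x) w + aper K d (-x) (-w)

lemma pair_zero (D : Data K d) (W : Wid K d) {x w : V} (hx : ‖x‖ = 1) (hw : ‖w‖ = 1)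
    (hxw : inner ℝ w x = (0 : ℝ)) (h : odd K (aper K d x w • x + w) = 0) :
    odd K (aper K d x (-w) • x + -w) = 0 := by
  rw [odd_zero_iff D hx] at h ⊢
  rw [neg_neg]
  have := W x w hx hw hxw
  linarith

lemma aper_pos (D : Data K d) {x w : V} (hx : ‖x‖ = 1) (hw : ‖w‖ = 1)
    (hxw : inner ℝ w x = (0 : ℝ)) : 0 < aper K d x w + aper K d x (-w) := by
  have hw0 : w ≠ 0 := by
    intro h; rw [h, norm_zero] at hw; exact zero_ne_one hw
  by_contra hcon
  push Not at hcon
  -- on K, ⟪y,w⟫ = c (1 - ⟪y,x⟫)
  set c := aper K d x w with hc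
  have h1 : ∀ y ∈ K, inner ℝ y (c • x + w) = c := by
    intro y hy
    have h2 := aper_le D hx w hy
    have h3 := aper_le D hx (-w) hy
    rw [div_le_iff₀ (den_pos D hx hy)] at h2 h3
    rw [inner_neg_right] at h3
    rw [inner_add_right, inner_smul_right]
    have h4 : aper K d x (-w) * (1 - inner ℝ y x) ≤ (-c) * (1 - inner ℝ y x) :=
      mul_le_mul_of_nonneg_right (by linarith) (den_pos D hx hy).le
    nlinarith
  have hne : c • x + w ≠ 0 := by
    intro h0
    have : inner ℝ (c • x + w) w = (1 : ℝ) := by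
      rw [inner_add_left, inner_smul_left, real_inner_comm, hxw, real_inner_self_eq_norm_sq, hw]
      simp
    rw [h0, inner_zero_left] at this
    exact zero_ne_one this
  have h5 := D.wid _ hne
  obtain ⟨y, hy, h6⟩ := supp_att D (c • x + w)
  obtain ⟨z, hz, h7⟩ := supp_att D (-(c • x + w))
  rw [h6, h7, inner_neg_right, h1 y hy, h1 z hz] at h5
  linarith

/-! ### The rigid relation between zeros of the odd part -/

lemma unit_decomp {u e : V} {a s : ℝ} (hu : ‖u‖ = 1) (he : ‖e‖ = 1)
    (hue : inner ℝ u e = (0 : ℝ)) (hs : a ^ 2 + s ^ 2 = 1) :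
    ‖a • u + s • e‖ = 1 ∧ ‖s • u - a • e‖ = 1 ∧ inner ℝ (s • u - a • e) (a • u + s • e) = (0 : ℝ) := by
  have huu : inner ℝ u u = (1 : ℝ) := by rw [real_inner_self_eq_norm_sq, hu]; norm_num
  have hee : inner ℝ e e = (1 : ℝ) := by rw [real_inner_self_eq_norm_sq, he]; norm_num
  have heu : inner ℝ e u = (0 : ℝ) := by rw [real_inner_comm]; exact hue
  refine ⟨?_, ?_, ?_⟩
  · have : ‖a • u + s • e‖ ^ 2 = 1 := by
      rw [← real_inner_self_eq_norm_sq]
      simp only [inner_add_left, inner_add_right, inner_smul_left, inner_smul_right, huu, hee,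
        hue, heu, conj_trivial]
      linarith
    have h0 := norm_nonneg (a • u + s • e)
    nlinarith
  · have : ‖s • u - a • e‖ ^ 2 = 1 := by
      rw [← real_inner_self_eq_norm_sq]
      simp only [inner_sub_left, inner_sub_right, inner_smul_left, inner_smul_right, huu, hee,
        hue, heu, conj_trivial]
      linarith
    have h0 := norm_nonneg (s • u - a • e)
    nlinarith
  · simp only [inner_sub_left, inner_add_right, inner_smul_left, inner_smul_right, huu, hee,
        hue, heu, conj_trivial]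
    ring

/-- Both directions of the basic implication, written with `u` unit, `e ⊥ u` unit,
`x = h(u) u + s e`, `w = s u - h(u) e`, where `s = √(1 - h(u)^2)`. -/
lemma aper_of_unit (D : Data K d) {u e : V} (hu : ‖u‖ = 1) (he : ‖e‖ = 1)
    (hue : inner ℝ u e = (0 : ℝ)) {s : ℝ} (hs0 : 0 < s) (hs : supp K u ^ 2 + s ^ 2 = 1) :
    aper K d (supp K u • u + s • e) (s • u - supp K u • e) = supp K u / s := by
  obtain ⟨h1, h2, h3⟩ := unit_decomp hu he hue hs
  apply aper_eq D h1
  have e1 : (supp K u / s) • (supp K u • u + s • e) + (s • u - supp K u • e)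
      = (1 / s) • u := by
    have : (supp K u / s) • (supp K u • u + s • e) + (s • u - supp K u • e)
      = ((supp K u ^ 2 + s ^ 2) / s) • u + (supp K u / s * s - supp K u) • e := by
      rw [smul_add, smul_smul, smul_smul, sub_smul, add_div, add_smul]
      have e2 : supp K u ^ 2 / s = supp K u / s * supp K u := by ring
      have e3 : s ^ 2 / s = s := by field_simp
      rw [e2, e3]
      abel
    rw [this, hs, div_mul_cancel₀ _ hs0.ne', sub_self, zero_smul, add_zero]
  rw [e1, supp_smul D (by positivity)]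
  ring

lemma odd_of_unit (D : Data K d) (W : Wid K d) {u e : V} (hu : ‖u‖ = 1) (he : ‖e‖ = 1)
    (hue : inner ℝ u e = (0 : ℝ)) {s : ℝ} (hs0 : 0 < s) (hs : supp K u ^ 2 + s ^ 2 = 1) :
    odd K u = 0 ↔ odd K (aper K d (supp K u • u + s • e) (-(s • u - supp K u • e)) •
      (supp K u • u + s • e) + -(s • u - supp K u • e)) = 0 := by
  obtain ⟨h1, h2, h3⟩ := unit_decomp hu he hue hs
  have hA := aper_of_unit D hu he hue hs0 hs
  set x := supp K u • u + s • e with hx
  set w := s • u - supp K u • e with hw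
  have e1 : (supp K u / s) • x + w = (1 / s) • u := by
    have : (supp K u / s) • x + w
      = ((supp K u ^ 2 + s ^ 2) / s) • u + (supp K u / s * s - supp K u) • e := by
      rw [hx, hw, smul_add, smul_smul, smul_smul, sub_smul, add_div, add_smul]
      have e2 : supp K u ^ 2 / s = supp K u / s * supp K u := by ring
      have e3 : s ^ 2 / s = s := by field_simp
      rw [e2, e3]
      abel
    rw [this, hs, div_mul_cancel₀ _ hs0.ne', sub_self, zero_smul, add_zero]
  have h4 : odd K u = 0 ↔ odd K (aper K d x w • x + w) = 0 := by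
    rw [hA, e1, odd_smul D]
    simp [hs0.ne']
  rw [h4]
  constructor
  · exact pair_zero D W h1 h2 h3
  · intro h
    have h5 := pair_zero D W h1 (w := -w) (by rw [norm_neg, h2]) (by rw [inner_neg_left, h3, neg_zero]) h
    rwa [neg_neg] at h5

lemma rel_zero (D : Data K d) (W : Wid K d) {u w : V} (hu : ‖u‖ = 1) (hw0 : w ≠ 0)
    (hrel : supp K u * inner ℝ u w
      + √((1 - supp K u ^ 2) * (‖w‖ ^ 2 - inner ℝ u w ^ 2)) = supp K w)
    (hodd : odd K u = 0) : odd K w = 0 := by
  have huu : inner ℝ u u = (1 : ℝ) := by rw [real_inner_self_eq_norm_sq, hu]; norm_num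
  set k := (inner ℝ u w : ℝ) with hk
  have hr0 : 0 ≤ ‖w‖ ^ 2 - k ^ 2 := by
    have h1 := real_inner_mul_inner_self_le u w
    rw [huu, real_inner_self_eq_norm_sq, ← hk] at h1
    nlinarith
  set r := √(‖w‖ ^ 2 - k ^ 2) with hr
  have hr2 : r ^ 2 = ‖w‖ ^ 2 - k ^ 2 := Real.sq_sqrt hr0
  have hrnn : 0 ≤ r := Real.sqrt_nonneg _
  have hnorm : ‖w - k • u‖ ^ 2 = r ^ 2 := by
    rw [norm_sub_sq_real, inner_smul_right, real_inner_comm, ← hk, norm_smul, hu, mul_one,
      Real.norm_eq_abs, sq_abs, hr2]
    ring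
  rcases hrnn.eq_or_lt with hr00 | hrpos
  · have h1 : ‖w - k • u‖ = 0 := by
      rw [← hr00] at hnorm
      nlinarith [norm_nonneg (w - k • u)]
    rw [norm_eq_zero, sub_eq_zero] at h1
    rw [h1, odd_smul D, hodd, mul_zero]
  have hlt := supp_abs_lt D hu
  set a := supp K u with ha
  have ha2 : a ^ 2 < 1 := by
    rw [← sq_abs]
    nlinarith [abs_nonneg a]
  set s := √(1 - a ^ 2) with hs
  have hspos : 0 < s := Real.sqrt_pos.2 (by linarith)
  have hs2 : a ^ 2 + s ^ 2 = 1 := by
    rw [hs, Real.sq_sqrt (by linarith)]; ring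
  have hsr : √((1 - a ^ 2) * (‖w‖ ^ 2 - k ^ 2)) = s * r := by
    rw [hs, hr, Real.sqrt_mul (by linarith)]
  rw [hsr] at hrel
  set e := (1 / r) • (w - k • u) with he
  have hwe : w = k • u + r • e := by
    rw [he, smul_smul, mul_one_div_cancel hrpos.ne', one_smul]; abel
  have hen : ‖e‖ = 1 := by
    have h1 : ‖w - k • u‖ = r := by
      nlinarith [norm_nonneg (w - k • u)]
    rw [he, norm_smul, h1, Real.norm_eq_abs, abs_of_pos (by positivity)]
    field_simp
  have hue : inner ℝ u e = (0 : ℝ) := by
    rw [he, inner_smul_right, inner_sub_right, inner_smul_right, huu, ← hk]; ring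
  obtain ⟨h1, h2, h3⟩ := unit_decomp hu hen hue hs2
  have hA := aper_of_unit D hu hen hue hspos hs2
  have hO := odd_of_unit D W hu hen hue hspos hs2
  rw [← ha] at hA hO
  set x := a • u + s • e with hx
  set v := s • u - a • e with hv
  -- `w = h(w) x + k' v`
  set k' := s * k - a * r with hk'
  have hw : w = supp K w • x + k' • v := by
    rw [← hrel, hx, hv, hk', hwe]
    have : (a * k + s * r) • (a • u + s • e) + (s * k - a * r) • (s • u - a • e)
      = ((a ^ 2 + s ^ 2) * k) • u + ((a ^ 2 + s ^ 2) * r) • e := by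
      module
    rw [this, hs2, one_mul, one_mul]
  rcases lt_trichotomy k' 0 with hneg | hzero | hpos
  · -- the partner case
    set t := -k' with ht
    have htpos : 0 < t := by rw [ht]; linarith
    have e1 : (1 / t) • w = (supp K w / t) • x + -v := by
      conv_lhs => rw [hw]
      have : k' = -t := by rw [ht]; ring
      rw [this, smul_add, smul_smul, smul_smul]
      have e2 : 1 / t * -t = -1 := by field_simp
      rw [e2, neg_one_smul]
      congr 2
      ring
    have e3 : aper K d x (-v) = supp K w / t := by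
      apply aper_eq D h1
      rw [← e1, supp_smul D (by positivity)]
      ring
    have e4 := hO.1 hodd
    rw [e3, ← e1, odd_smul D] at e4
    rcases mul_eq_zero.1 e4 with h | h
    · exact absurd h (by positivity)
    · exact h
  · exfalso
    rw [hzero, zero_smul, add_zero] at hw
    have hxn : ‖w‖ = |supp K w| := by
      conv_lhs => rw [hw]
      rw [norm_smul, h1, mul_one, Real.norm_eq_abs]
    have hwn : 0 < ‖w‖ := norm_pos_iff.2 hw0
    have hunit : ‖(1 / ‖w‖) • w‖ = 1 := by
      rw [norm_smul, Real.norm_eq_abs, abs_of_pos (by positivity)]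
      field_simp
    have h5 := supp_abs_lt D hunit
    rw [supp_smul D (by positivity), abs_mul, ← hxn, abs_of_pos (by positivity)] at h5
    have : 1 / ‖w‖ * ‖w‖ = 1 := by field_simp
    linarith
  · have e1 : (1 / k') • w = (supp K w / k') • x + v := by
      conv_lhs => rw [hw]
      rw [smul_add, smul_smul, smul_smul]
      have e2 : 1 / k' * k' = 1 := by field_simp
      rw [e2, one_smul]
      congr 2
      ring
    have e3 : aper K d x v = supp K w / k' := by
      apply aper_eq D h1
      rw [← e1, supp_smul D (by positivity)]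
      ring
    -- so `w / k' = u / s`
    have e5 : (1 / k') • w = (1 / s) • u := by
      rw [e1, ← e3, hA, hx, hv]
      have : (a / s) • (a • u + s • e) + (s • u - a • e)
        = ((a ^ 2 + s ^ 2) / s) • u + (a / s * s - a) • e := by
        rw [smul_add, smul_smul, smul_smul, sub_smul, add_div, add_smul]
        have e2 : a ^ 2 / s = a / s * a := by ring
        have e3 : s ^ 2 / s = s := by field_simp
        rw [e2, e3]
        abel
      rw [this, hs2, div_mul_cancel₀ _ hspos.ne', sub_self, zero_smul, add_zero]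
    have e6 : odd K ((1 / k') • w) = 0 := by rw [e5, odd_smul D, hodd, mul_zero]
    rw [odd_smul D] at e6
    rcases mul_eq_zero.1 e6 with h | h
    · exact absurd h (by positivity)
    · exact h

/-! ### Turning the normal in a plane -/

lemma trig_lhs {ta tw b p P : ℝ} (hta : 0 < ta) (hta' : ta < Real.pi) (htw : 0 < Real.sin tw)
    (hb : Real.cos tw = b * Real.sin tw) (hP : P = b * Real.cos p - Real.sin p)
    (h0 : 0 ≤ p + tw) (hpi : p + tw ≤ Real.pi) :
    Real.cos ta * P + √((1 - Real.cos ta ^ 2) * ((1 + b ^ 2) - P ^ 2))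
      = Real.cos (p + tw - ta) / Real.sin tw := by
  have h1 : P = Real.cos (p + tw) / Real.sin tw := by
    rw [hP, eq_div_iff htw.ne', Real.cos_add]
    linear_combination (-Real.cos p) * hb
  have h2 : (1 + b ^ 2) * Real.sin tw ^ 2 = 1 := by
    have := Real.sin_sq_add_cos_sq tw
    rw [hb] at this
    linarith
  have h3 : (1 - Real.cos ta ^ 2) * ((1 + b ^ 2) - P ^ 2)
      = (Real.sin ta * Real.sin (p + tw) / Real.sin tw) ^ 2 := by
    rw [h1, div_pow, div_pow, mul_pow, eq_div_iff (by positivity)]
    have h4 : (1 + b ^ 2 - Real.cos (p + tw) ^ 2 / Real.sin tw ^ 2) * Real.sin tw ^ 2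
        = Real.sin (p + tw) ^ 2 := by
      rw [sub_mul, h2, div_mul_cancel₀ _ (by positivity)]
      have := Real.sin_sq_add_cos_sq (p + tw)
      linarith
    rw [mul_assoc, h4]
    have := Real.sin_sq_add_cos_sq ta
    rw [← this]
    ring
  rw [h3, Real.sqrt_sq]
  · rw [h1, Real.cos_sub]
    ring
  · have h5 : 0 ≤ Real.sin ta := Real.sin_nonneg_of_nonneg_of_le_pi hta.le hta'.le
    have h6 : 0 ≤ Real.sin (p + tw) := Real.sin_nonneg_of_nonneg_of_le_pi h0 hpi
    positivity

/-- The arccotangent. -/
noncomputable def acot (b : ℝ) : ℝ := Real.pi / 2 - Real.arctan b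

lemma acot_pos (b : ℝ) : 0 < acot b := by
  unfold acot; linarith [Real.arctan_lt_pi_div_two b]

lemma acot_lt (b : ℝ) : acot b < Real.pi := by
  unfold acot; linarith [Real.neg_pi_div_two_lt_arctan b]

lemma acot_cont : Continuous acot := by
  unfold acot; exact continuous_const.sub Real.continuous_arctan

lemma sin_acot_pos (b : ℝ) : 0 < Real.sin (acot b) :=
  Real.sin_pos_of_pos_of_lt_pi (acot_pos b) (acot_lt b)

lemma cos_acot (b : ℝ) : Real.cos (acot b) = b * Real.sin (acot b) := by
  unfold acot
  rw [Real.cos_pi_div_two_sub, Real.sin_pi_div_two_sub, Real.sin_arctan, Real.cos_arctan]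
  ring

/-- The angle `arccos h(u)`. -/
noncomputable def tau (K : Set V) (u : V) : ℝ := Real.arccos (supp K u)

lemma tau_pos (D : Data K d) {u : V} (hu : ‖u‖ = 1) : 0 < tau K u := by
  unfold tau
  have := supp_abs_lt D hu
  exact Real.arccos_pos.2 (abs_lt.1 this).2

lemma tau_lt (D : Data K d) {u : V} (hu : ‖u‖ = 1) : tau K u < Real.pi := by
  unfold tau
  have := supp_abs_lt D hu
  refine lt_of_le_of_ne (Real.arccos_le_pi _) ?_
  intro h
  rw [Real.arccos_eq_pi] at h
  linarith [(abs_lt.1 this).1]

lemma cos_tau (D : Data K d) {u : V} (hu : ‖u‖ = 1) : Real.cos (tau K u) = supp K u := by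
  have := supp_abs_lt D hu
  exact Real.cos_arccos (abs_lt.1 this).1.le (abs_lt.1 this).2.le

lemma sin_tau_pos (D : Data K d) {u : V} (hu : ‖u‖ = 1) : 0 < Real.sin (tau K u) :=
  Real.sin_pos_of_pos_of_lt_pi (tau_pos D hu) (tau_lt D hu)

lemma tau_cont (D : Data K d) : Continuous (tau K) := by
  unfold tau; exact Real.continuous_arccos.comp (supp_cont D)

lemma tau_lip (D : Data K d) {a b : V} (ha : ‖a‖ = 1) (hb : ‖b‖ = 1)
    (hab : inner ℝ a b = (0 : ℝ)) {t : ℝ} (ht : 0 < t) (ht' : t < Real.pi) :
    tau K (Real.cos t • a + Real.sin t • b) < tau K a + t := by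
  have hn : ‖Real.cos t • a + Real.sin t • b‖ = 1 :=
    (unit_decomp ha hb hab (by rw [add_comm]; exact Real.sin_sq_add_cos_sq t)).1
  have hst : 0 < Real.sin t := Real.sin_pos_of_pos_of_lt_pi ht ht'
  by_cases hpi : tau K a + t ≤ Real.pi
  · obtain ⟨y, hy, hya⟩ := supp_att D a
    have h1 := supp_le D (Real.cos t • a + Real.sin t • b) hy
    rw [inner_add_right, inner_smul_right, inner_smul_right, ← hya] at h1
    have h2 : -Real.sin (tau K a) < inner ℝ y b := by
      -- Bessel
      have h3 : (inner ℝ y a : ℝ) ^ 2 + inner ℝ y b ^ 2 ≤ ‖y‖ ^ 2 := by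
        have h4 : 0 ≤ ‖y - (inner ℝ y a : ℝ) • a - (inner ℝ y b : ℝ) • b‖ ^ 2 := by positivity
        have haa : inner ℝ a a = (1 : ℝ) := by rw [real_inner_self_eq_norm_sq, ha]; norm_num
        have hbb : inner ℝ b b = (1 : ℝ) := by rw [real_inner_self_eq_norm_sq, hb]; norm_num
        have hba : inner ℝ b a = (0 : ℝ) := by rw [real_inner_comm]; exact hab
        have hay : inner ℝ a y = inner ℝ y a := real_inner_comm _ _
        have hby : inner ℝ b y = inner ℝ y b := real_inner_comm _ _
        rw [← real_inner_self_eq_norm_sq] at h4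
        simp only [inner_sub_left, inner_sub_right, inner_smul_left, inner_smul_right, haa, hbb,
          hba, hab, conj_trivial, hay, hby, real_inner_self_eq_norm_sq y] at h4
        nlinarith
      have h5 := norm_lt D hy
      have h6 : ‖y‖ ^ 2 < 1 := by nlinarith [norm_nonneg y]
      have h7 := Real.sin_sq_add_cos_sq (tau K a)
      rw [cos_tau D ha, hya] at h7
      have h8 := sin_tau_pos D ha
      nlinarith
    have h9 : Real.cos (tau K a + t) < supp K (Real.cos t • a + Real.sin t • b) := by
      rw [Real.cos_add, cos_tau D ha]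
      nlinarith
    rw [← cos_tau D hn] at h9
    by_contra hcon
    push Not at hcon
    have := Real.cos_le_cos_of_nonneg_of_le_pi (by linarith [tau_pos D ha]) (tau_lt D hn).le hcon
    linarith
  · push Not at hpi
    exact (tau_lt D hn).trans hpi

/-- The point `x` of the construction attached to a unit normal `v` and a unit `e ⊥ v`. -/
noncomputable def pt (K : Set V) (v e : V) : V :=
  Real.cos (tau K v) • v + Real.sin (tau K v) • e

/-- The direction of the construction attached to a unit normal `v` and a unit `e ⊥ v`. -/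
noncomputable def dr (K : Set V) (v e : V) : V :=
  Real.sin (tau K v) • v - Real.cos (tau K v) • e

/-- The aperture on the other side. -/
noncomputable def bet (K : Set V) (d : ℝ) (v e : V) : ℝ := aper K d (pt K v e) (-(dr K v e))

/-- The partner normal. -/
noncomputable def par (K : Set V) (d : ℝ) (v e : V) : V := bet K d v e • pt K v e + -(dr K v e)

lemma pt_cont (D : Data K d) : Continuous (fun q : V × V => pt K q.1 q.2) := by
  unfold pt
  have := tau_cont D
  have h1 : Continuous (fun q : V × V => tau K q.1) := this.comp continuous_fst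
  exact ((Real.continuous_cos.comp h1).smul continuous_fst).add
    ((Real.continuous_sin.comp h1).smul continuous_snd)

lemma dr_cont (D : Data K d) : Continuous (fun q : V × V => dr K q.1 q.2) := by
  unfold dr
  have := tau_cont D
  have h1 : Continuous (fun q : V × V => tau K q.1) := this.comp continuous_fst
  exact ((Real.continuous_sin.comp h1).smul continuous_fst).sub
    ((Real.continuous_cos.comp h1).smul continuous_snd)

lemma bet_cont (D : Data K d) : Continuous (fun q : V × V => bet K d q.1 q.2) := by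
  unfold bet
  exact (aper_cont D).comp ((pt_cont D).prodMk (dr_cont D).neg)

lemma par_cont (D : Data K d) : Continuous (fun q : V × V => par K d q.1 q.2) := by
  unfold par
  exact ((bet_cont D).smul (pt_cont D)).add (dr_cont D).neg

/-- The function whose vanishing is the rigid relation between `a` and `w`. -/
noncomputable def rel (K : Set V) (a w : V) : ℝ :=
  supp K a * inner ℝ a w + √((1 - supp K a ^ 2) * (‖w‖ ^ 2 - inner ℝ a w ^ 2)) - supp K w

lemma rel_cont (D : Data K d) (a : V) : Continuous (rel K a) := by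
  unfold rel
  have := supp_cont D
  fun_prop

lemma acot_bet_cont (D : Data K d) {f g : ℝ → V} (hf : Continuous f) (hg : Continuous g) :
    Continuous (fun t => acot (bet K d (f t) (g t))) := by
  have h1 := (bet_cont D).comp (hf.prodMk hg)
  exact acot_cont.comp h1

lemma rel_par_cont (D : Data K d) (a : V) {f g : ℝ → V} (hf : Continuous f)
    (hg : Continuous g) : Continuous (fun t => rel K a (par K d (f t) (g t))) := by
  have h1 := (par_cont D).comp (hf.prodMk hg)
  exact (rel_cont D a).comp h1

lemma supp_sq_add (D : Data K d) {v : V} (hv : ‖v‖ = 1) :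
    supp K v ^ 2 + Real.sin (tau K v) ^ 2 = 1 := by
  rw [← cos_tau D hv, add_comm]; exact Real.sin_sq_add_cos_sq _

lemma par_facts (D : Data K d) (W : Wid K d) {v e : V} (hv : ‖v‖ = 1) (he : ‖e‖ = 1)
    (hve : inner ℝ v e = (0 : ℝ)) :
    (odd K v = 0 ↔ odd K (par K d v e) = 0) ∧ supp K (par K d v e) = bet K d v e ∧
      ‖par K d v e‖ ^ 2 = 1 + bet K d v e ^ 2 ∧ tau K v + acot (bet K d v e) < Real.pi := by
  have hs0 := sin_tau_pos D hv
  have hs := supp_sq_add D hv
  obtain ⟨h1, h2, h3⟩ := unit_decomp hv he hve hs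
  rw [← cos_tau D hv] at h1 h2 h3
  change ‖pt K v e‖ = 1 at h1
  change ‖dr K v e‖ = 1 at h2
  change inner ℝ (dr K v e) (pt K v e) = (0 : ℝ) at h3
  refine ⟨?_, ?_, ?_, ?_⟩
  · have := odd_of_unit D W hv he hve hs0 hs
    rw [← cos_tau D hv] at this
    exact this
  · exact supp_aper D h1 _
  · unfold par
    rw [norm_add_sq_real, inner_neg_right, inner_smul_left, real_inner_comm, h3, norm_neg, h2,
      norm_smul, h1, mul_one, Real.norm_eq_abs, sq_abs]
    simp
    ring
  · have h4 := aper_pos D h1 h2 h3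
    have h5 := aper_of_unit D hv he hve hs0 hs
    have h6 : aper K d (pt K v e) (dr K v e) = Real.cos (tau K v) / Real.sin (tau K v) := by
      rw [← cos_tau D hv] at h5
      exact h5
    rw [h6] at h4
    change 0 < Real.cos (tau K v) / Real.sin (tau K v) + bet K d v e at h4
    set b := bet K d v e
    by_contra hcon
    push Not at hcon
    have h7 : Real.sin (tau K v + acot b) ≤ 0 := by
      have h8 : Real.sin (tau K v + acot b - Real.pi) = - Real.sin (tau K v + acot b) := by
        rw [Real.sin_sub_pi]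
      have h9 : 0 ≤ Real.sin (tau K v + acot b - Real.pi) := by
        apply Real.sin_nonneg_of_nonneg_of_le_pi
        · linarith
        · linarith [tau_lt D hv, acot_lt b]
      linarith
    rw [Real.sin_add, cos_acot] at h7
    have h10 : Real.sin (tau K v) * (b * Real.sin (acot b))
        + Real.cos (tau K v) * Real.sin (acot b)
        = Real.sin (tau K v) * Real.sin (acot b) *
          (Real.cos (tau K v) / Real.sin (tau K v) + b) := by
      field_simp
      ring
    rw [h10] at h7
    have h11 : 0 < Real.sin (tau K v) * Real.sin (acot b) *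
          (Real.cos (tau K v) / Real.sin (tau K v) + b) :=
      mul_pos (mul_pos hs0 (sin_acot_pos b)) h4
    linarith

lemma rel_eq (D : Data K d) (W : Wid K d) {a v e : V} (ha : ‖a‖ = 1) (hv : ‖v‖ = 1)
    (he : ‖e‖ = 1) (hve : inner ℝ v e = (0 : ℝ)) {p : ℝ}
    (hP : inner ℝ a (par K d v e) = bet K d v e * Real.cos p - Real.sin p)
    (h0 : 0 ≤ p + acot (bet K d v e)) (hpi : p + acot (bet K d v e) ≤ Real.pi) :
    rel K a (par K d v e) = (Real.cos (p + acot (bet K d v e) - tau K a)
      - Real.cos (acot (bet K d v e))) / Real.sin (acot (bet K d v e)) := by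
  obtain ⟨-, h2, h3, -⟩ := par_facts D W hv he hve
  unfold rel
  rw [h2, h3, ← cos_tau D ha, trig_lhs (tau_pos D ha) (tau_lt D ha) (sin_acot_pos _)
    (cos_acot _) hP h0 hpi, sub_div]
  congr 1
  rw [eq_div_iff (sin_acot_pos _).ne', cos_acot]

lemma local_claim (D : Data K d) (W : Wid K d) {a b c : V} (ha : ‖a‖ = 1) (hb : ‖b‖ = 1)
    (hc : ‖c‖ = 1) (hab : inner ℝ a b = (0 : ℝ)) (hac : inner ℝ a c = (0 : ℝ))
    (hbc : inner ℝ b c = (0 : ℝ)) (h0 : odd K a = 0) :
    ∀ᶠ t in 𝓝[>] (0 : ℝ), odd K (Real.cos t • a + Real.sin t • b) = 0 := by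
  have haa : inner ℝ a a = (1 : ℝ) := by rw [real_inner_self_eq_norm_sq, ha]; norm_num
  have hbb : inner ℝ b b = (1 : ℝ) := by rw [real_inner_self_eq_norm_sq, hb]; norm_num
  have hcc : inner ℝ c c = (1 : ℝ) := by rw [real_inner_self_eq_norm_sq, hc]; norm_num
  have hba : inner ℝ b a = (0 : ℝ) := by rw [real_inner_comm]; exact hab
  have hca : inner ℝ c a = (0 : ℝ) := by rw [real_inner_comm]; exact hac
  have hcb : inner ℝ c b = (0 : ℝ) := by rw [real_inner_comm]; exact hbc
  set v : ℝ → V := fun t => Real.cos t • a + Real.sin t • b with hv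
  set p : ℝ → V := fun t => Real.cos t • b - Real.sin t • a with hp
  have vcont : Continuous v := by rw [hv]; fun_prop
  have pcont : Continuous p := by rw [hp]; fun_prop
  have vn : ∀ t, ‖v t‖ = 1 := fun t =>
    (unit_decomp ha hb hab (by rw [add_comm]; exact Real.sin_sq_add_cos_sq t)).1
  have pn : ∀ t, ‖p t‖ = 1 := fun t =>
    (unit_decomp hb ha hba (Real.sin_sq_add_cos_sq t)).2.1
  have vp : ∀ t, inner ℝ (v t) (p t) = (0 : ℝ) := by
    intro t
    simp only [hv, hp, inner_add_left, inner_sub_right, inner_smul_left, inner_smul_right, haa,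
      hbb, hab, hba, conj_trivial]
    ring
  have av : ∀ t, inner ℝ a (v t) = Real.cos t := by
    intro t
    simp only [hv, inner_add_right, inner_smul_right, haa, hab]; ring
  have ap : ∀ t, inner ℝ a (p t) = -Real.sin t := by
    intro t
    simp only [hp, inner_sub_right, inner_smul_right, haa, hab]; ring
  have v0 : v 0 = a := by simp [hv]
  have p0 : p 0 = b := by simp [hp]
  have tcont : Continuous (fun t => tau K (v t)) := (tau_cont D).comp vcont
  have gcont : Continuous (fun t => acot (bet K d (v t) (p t))) :=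
    acot_bet_cont D vcont pcont
  have gcont' : Continuous (fun t => acot (bet K d (v t) (-(p t)))) :=
    acot_bet_cont D vcont pcont.neg
  have hC1 : ∀ᶠ t in 𝓝 (0 : ℝ), t + tau K (v t) + acot (bet K d (v t) (p t)) < Real.pi := by
    have hcont : Continuous (fun t => t + tau K (v t) + acot (bet K d (v t) (p t))) :=
      (continuous_id.add tcont).add gcont
    apply (hcont.tendsto 0).eventually_lt_const
    rw [v0, p0, zero_add]
    exact (par_facts D W ha hb hab).2.2.2
  have hC4 : ∀ᶠ t in 𝓝 (0 : ℝ),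
      t + tau K a - tau K (v t) < 2 * acot (bet K d (v t) (-(p t))) := by
    have hcont : Continuous (fun t => t + tau K a - tau K (v t)) :=
      (continuous_id.add continuous_const).sub tcont
    have hcont' : Continuous (fun t => 2 * acot (bet K d (v t) (-(p t)))) :=
      continuous_const.mul gcont'
    apply (hcont.tendsto 0).eventually_lt (hcont'.tendsto 0)
    rw [v0, p0]
    linarith [acot_pos (bet K d a (-b))]
  have hC5 : ∀ᶠ t in 𝓝 (0 : ℝ),
      0 < tau K (v t) + acot (bet K d (v t) (-(p t))) - t := by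
    have hcont : Continuous (fun t => tau K (v t) + acot (bet K d (v t) (-(p t))) - t) :=
      (tcont.add gcont').sub continuous_id
    apply (hcont.tendsto 0).eventually_const_lt
    rw [v0, p0, sub_zero]
    linarith [acot_pos (bet K d a (-b)), tau_pos D ha]
  have hC6 : ∀ᶠ t in 𝓝 (0 : ℝ), t < Real.pi :=
    (continuous_id.tendsto (0 : ℝ)).eventually_lt_const Real.pi_pos
  filter_upwards [nhdsWithin_le_nhds hC1, nhdsWithin_le_nhds hC4, nhdsWithin_le_nhds hC5,
    nhdsWithin_le_nhds hC6, self_mem_nhdsWithin] with t h1 h4 h5 h6 h7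
  have ht : 0 < t := h7
  -- Lipschitz property
  have lip1 : tau K (v t) < tau K a + t := tau_lip D ha hb hab ht h6
  have lip2 : tau K a < tau K (v t) + t := by
    have hvp' : inner ℝ (v t) (-(p t)) = (0 : ℝ) := by rw [inner_neg_right, vp, neg_zero]
    have := tau_lip D (vn t) (b := -(p t)) (by rw [norm_neg, pn]) hvp' ht h6
    have e : Real.cos t • v t + Real.sin t • -(p t) = a := by
      have e1 : Real.cos t • v t + Real.sin t • -(p t)
          = (Real.sin t ^ 2 + Real.cos t ^ 2) • a := by
        simp only [hv, hp]; module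
      rw [e1, Real.sin_sq_add_cos_sq, one_smul]
    rwa [e] at this
  -- the path
  set e : ℝ → V := fun s => Real.cos s • p t + Real.sin s • c with he
  have econt : Continuous e := by rw [he]; fun_prop
  have hpc : inner ℝ (p t) c = (0 : ℝ) := by
    simp only [hp, inner_sub_left, inner_smul_left, hbc, hac]; simp
  have hvc : inner ℝ (v t) c = (0 : ℝ) := by
    simp only [hv, inner_add_left, inner_smul_left, hbc, hac]; simp
  have en : ∀ s, ‖e s‖ = 1 := fun s =>
    (unit_decomp (pn t) hc hpc (by rw [add_comm]; exact Real.sin_sq_add_cos_sq s)).1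
  have ve : ∀ s, inner ℝ (v t) (e s) = (0 : ℝ) := by
    intro s
    simp only [he, inner_add_right, inner_smul_right, vp, hvc]; ring
  have e0 : e 0 = p t := by simp [he]
  have epi : e Real.pi = -(p t) := by simp [he]
  have pcont2 : Continuous (fun s => rel K a (par K d (v t) (e s))) :=
    rel_par_cont D a continuous_const econt
  have hvp' : inner ℝ (v t) (-(p t)) = (0 : ℝ) := by rw [inner_neg_right, vp, neg_zero]
  have hlow : rel K a (par K d (v t) (e 0)) < 0 := by
    rw [e0, rel_eq D W ha (vn t) (pn t) (vp t) (p := t + tau K (v t))]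
    · apply div_neg_of_neg_of_pos _ (sin_acot_pos _)
      have := Real.cos_lt_cos_of_nonneg_of_le_pi (acot_pos (bet K d (v t) (p t))).le
        (y := t + tau K (v t) + acot (bet K d (v t) (p t)) - tau K a)
        (by linarith [tau_pos D ha]) (by linarith)
      linarith
    · unfold par pt dr
      simp only [inner_add_right, inner_neg_right, inner_sub_right, inner_smul_right, av, ap]
      rw [Real.cos_add, Real.sin_add]
      ring
    · linarith [tau_pos D (vn t), acot_pos (bet K d (v t) (p t))]
    · exact h1.le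
  have hhigh : 0 < rel K a (par K d (v t) (e Real.pi)) := by
    rw [epi, rel_eq D W ha (vn t) (by rw [norm_neg, pn]) hvp' (p := tau K (v t) - t)]
    · apply div_pos _ (sin_acot_pos _)
      set w := acot (bet K d (v t) (-(p t)))
      have hw := acot_pos (bet K d (v t) (-(p t)))
      have hw' := acot_lt (bet K d (v t) (-(p t)))
      have habs : |tau K (v t) - t + w - tau K a| < w := by
        rw [abs_lt]; constructor <;> linarith
      have := Real.cos_lt_cos_of_nonneg_of_le_pi (abs_nonneg (tau K (v t) - t + w - tau K a))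
        hw'.le habs
      rw [Real.cos_abs] at this
      linarith
    · unfold par pt dr
      simp only [inner_add_right, inner_neg_right, inner_sub_right, inner_smul_right, av, ap]
      rw [Real.cos_sub, Real.sin_sub]
      ring
    · linarith
    · have := (par_facts D W (vn t) (by rw [norm_neg, pn]) hvp').2.2.2
      linarith
  obtain ⟨s, -, hs⟩ := intermediate_value_Icc Real.pi_pos.le pcont2.continuousOn
    ⟨hlow.le, hhigh.le⟩
  have hfac := par_facts D W (vn t) (en s) (ve s)
  rw [hfac.1]
  apply rel_zero D W ha _ _ h0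
  · intro h
    have := hfac.2.2.1
    rw [h, norm_zero] at this
    nlinarith [sq_nonneg (bet K d (v t) (e s))]
  · have : rel K a (par K d (v t) (e s)) = 0 := hs
    unfold rel at this
    linarith

lemma plane_zero (D : Data K d) (W : Wid K d) {a b c : V} (ha : ‖a‖ = 1) (hb : ‖b‖ = 1)
    (hc : ‖c‖ = 1) (hab : inner ℝ a b = (0 : ℝ)) (hac : inner ℝ a c = (0 : ℝ))
    (hbc : inner ℝ b c = (0 : ℝ)) : odd K a = 0 := by
  have haa : inner ℝ a a = (1 : ℝ) := by rw [real_inner_self_eq_norm_sq, ha]; norm_num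
  have hbb : inner ℝ b b = (1 : ℝ) := by rw [real_inner_self_eq_norm_sq, hb]; norm_num
  have hba : inner ℝ b a = (0 : ℝ) := by rw [real_inner_comm]; exact hab
  set v : ℝ → V := fun t => Real.cos t • a + Real.sin t • b with hv
  set p : ℝ → V := fun t => Real.cos t • b - Real.sin t • a with hp
  have vcont : Continuous v := by rw [hv]; fun_prop
  have vn : ∀ t, ‖v t‖ = 1 := fun t =>
    (unit_decomp ha hb hab (by rw [add_comm]; exact Real.sin_sq_add_cos_sq t)).1
  have pn : ∀ t, ‖p t‖ = 1 := fun t =>
    (unit_decomp hb ha hba (Real.sin_sq_add_cos_sq t)).2.1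
  have vp : ∀ t, inner ℝ (v t) (p t) = (0 : ℝ) := by
    intro t
    simp only [hv, hp, inner_add_left, inner_sub_right, inner_smul_left, inner_smul_right, haa,
      hbb, hab, hba, conj_trivial]
    ring
  have hvc : ∀ t, inner ℝ (v t) c = (0 : ℝ) := by
    intro t
    simp only [hv, inner_add_left, inner_smul_left, hbc, hac]; simp
  have hpc : ∀ t, inner ℝ (p t) c = (0 : ℝ) := by
    intro t
    simp only [hp, inner_sub_left, inner_smul_left, hbc, hac]; simp
  have hadd : ∀ t s, v (t + s) = Real.cos s • v t + Real.sin s • p t := by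
    intro t s
    simp only [hv, hp, Real.cos_add, Real.sin_add]
    module
  have hsub : ∀ t s, v (t - s) = Real.cos s • v t + Real.sin s • -(p t) := by
    intro t s
    simp only [hv, hp, Real.cos_sub, Real.sin_sub]
    module
  have fcont : Continuous (fun t => odd K (v t)) := (odd_cont D).comp vcont
  set Z : Set ℝ := {t | odd K (v t) = 0} with hZ
  have hclosed : IsClosed Z := isClosed_eq fcont continuous_const
  have hopen : IsOpen Z := by
    rw [Metric.isOpen_iff]
    intro t ht
    have ht' : odd K (v t) = 0 := ht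
    have h1 := local_claim D W (vn t) (pn t) hc (vp t) (hvc t) (hpc t) ht'
    have h2 := local_claim D W (vn t) (b := -(p t)) (by rw [norm_neg, pn]) hc
      (by rw [inner_neg_right, vp, neg_zero]) (hvc t) (by rw [inner_neg_left, hpc, neg_zero]) ht'
    obtain ⟨u1, hu1, h1⟩ := (mem_nhdsGT_iff_exists_Ioo_subset).1 h1
    obtain ⟨u2, hu2, h2⟩ := (mem_nhdsGT_iff_exists_Ioo_subset).1 h2
    have hu1' : 0 < u1 := hu1
    have hu2' : 0 < u2 := hu2
    refine ⟨min u1 u2, lt_min hu1' hu2', ?_⟩
    intro r hr
    rw [mem_ball, Real.dist_eq] at hr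
    obtain ⟨hr1, hr2⟩ := lt_min_iff.1 hr
    rcases lt_trichotomy r t with h | h | h
    · have h3 : t - r ∈ Ioo 0 u2 := by
        rw [abs_of_neg (by linarith)] at hr2
        exact ⟨by linarith, by linarith⟩
      have h4 : odd K (Real.cos (t - r) • v t + Real.sin (t - r) • -(p t)) = 0 := h2 h3
      rw [← hsub, sub_sub_cancel] at h4
      exact h4
    · rw [h]; exact ht
    · have h3 : r - t ∈ Ioo 0 u1 := by
        rw [abs_of_pos (by linarith)] at hr1
        exact ⟨by linarith, by linarith⟩
      have h4 : odd K (Real.cos (r - t) • v t + Real.sin (r - t) • p t) = 0 := h1 h3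
      rw [← hadd, add_sub_cancel] at h4
      exact h4
  have v0 : v 0 = a := by simp [hv]
  have vpi : v Real.pi = -a := by simp [hv]
  have hne : Z.Nonempty := by
    rcases le_total 0 (odd K a) with h | h
    · obtain ⟨t, ht⟩ := mem_range_of_exists_le_of_exists_ge fcont
        (c := 0) ⟨Real.pi, by rw [vpi, odd_neg]; linarith⟩ ⟨0, by rw [v0]; exact h⟩
      exact ⟨t, ht⟩
    · obtain ⟨t, ht⟩ := mem_range_of_exists_le_of_exists_ge fcont
        (c := 0) ⟨0, by rw [v0]; exact h⟩ ⟨Real.pi, by rw [vpi, odd_neg]; linarith⟩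
      exact ⟨t, ht⟩
  have huniv : Z = univ := IsClopen.eq_univ ⟨hclosed, hopen⟩ hne
  have : (0 : ℝ) ∈ Z := by rw [huniv]; trivial
  have h0 : odd K (v 0) = 0 := this
  rwa [v0] at h0

end Abstract

/-! ### Back to Euclidean space -/

lemma exists_unit_orth {n : ℕ} (s : Finset (EuclideanSpace ℝ (Fin n))) (hs : s.card < n) :
    ∃ c : EuclideanSpace ℝ (Fin n), ‖c‖ = 1 ∧ ∀ a ∈ s, inner ℝ a c = (0 : ℝ) := by
  set S := Submodule.span ℝ (s : Set (EuclideanSpace ℝ (Fin n))) with hS
  have h1 : Module.finrank ℝ S ≤ s.card := finrank_span_finset_le_card s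
  have h2 := Submodule.finrank_add_finrank_orthogonal S
  rw [finrank_euclideanSpace_fin] at h2
  have h3 : Sᗮ ≠ ⊥ := by
    intro h
    rw [h, finrank_bot] at h2
    omega
  obtain ⟨c, hc, hc0⟩ := Submodule.exists_mem_ne_zero_of_ne_bot h3
  refine ⟨‖c‖⁻¹ • c, ?_, ?_⟩
  · rw [norm_smul, norm_inv, norm_norm, inv_mul_cancel₀ (norm_ne_zero_iff.2 hc0)]
  · intro a ha
    have := (Submodule.mem_orthogonal S c).1 hc a (Submodule.subset_span ha)
    rw [inner_smul_right, this, mul_zero]

lemma odd_zero {n : ℕ} (hn : 3 ≤ n) {K : Set (EuclideanSpace ℝ (Fin n))} {d : ℝ} (D : Data K d)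
    (W : Wid K d) (u : EuclideanSpace ℝ (Fin n)) : odd K u = 0 := by
  by_cases hu : u = 0
  · rw [hu]; unfold odd; rw [neg_zero, sub_self]
  set a := ‖u‖⁻¹ • u with ha
  have han : ‖a‖ = 1 := by
    rw [ha, norm_smul, norm_inv, norm_norm, inv_mul_cancel₀ (norm_ne_zero_iff.2 hu)]
  obtain ⟨b, hb, hab⟩ := exists_unit_orth ({a} : Finset _) (by simp; omega)
  obtain ⟨c, hc, habc⟩ := exists_unit_orth ({a, b} : Finset _)
    (lt_of_le_of_lt (Finset.card_le_two) (by omega))
  have h0 := plane_zero D W han hb hc (hab a (by simp)) (habc a (by simp)) (habc b (by simp))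
  rw [ha, odd_smul D] at h0
  rcases mul_eq_zero.1 h0 with h | h
  · exact absurd h (inv_ne_zero (norm_ne_zero_iff.2 hu))
  · exact h

lemma symm_of_supp {n : ℕ} {K : Set (EuclideanSpace ℝ (Fin n))} {d : ℝ} (hconv : Convex ℝ K)
    (hcl : IsClosed K) (D : Data K d) (h : ∀ u, odd K u = 0) (x : EuclideanSpace ℝ (Fin n))
    (hx : x ∈ K) : -x ∈ K := by
  by_contra hcon
  obtain ⟨f, t, h1, h2⟩ := geometric_hahn_banach_closed_point hconv hcl hcon
  set z := (InnerProductSpace.toDual ℝ (EuclideanSpace ℝ (Fin n))).symm f with hz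
  have hf : ∀ y, f y = inner ℝ y z := by
    intro y
    rw [real_inner_comm, hz, InnerProductSpace.toDual_symm_apply]
  obtain ⟨y, hy, hsy⟩ := supp_att D z
  have h3 := h1 y hy
  rw [hf, ← hsy] at h3
  have h4 := supp_le D (-z) hx
  have h5 := h z
  unfold odd at h5
  rw [hf, inner_neg_left] at h2
  rw [inner_neg_right] at h4
  linarith

lemma image_centralProj {n : ℕ} {K : Set (EuclideanSpace ℝ (Fin n))} {d : ℝ} (D : Data K d)
    {x w : EuclideanSpace ℝ (Fin n)} (hx : ‖x‖ = 1) (hxw : inner ℝ w x = (0 : ℝ)) :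
    (fun z => (inner ℝ z w : ℝ)) '' centralProj K x
      = (fun y => (inner ℝ y w : ℝ) / (1 - inner ℝ y x)) '' K := by
  have hxx : inner ℝ x x = (1 : ℝ) := by rw [real_inner_self_eq_norm_sq, hx]; norm_num
  have hxw' : inner ℝ x w = (0 : ℝ) := by rw [real_inner_comm]; exact hxw
  ext r
  constructor
  · rintro ⟨z, ⟨⟨y, hy, l, hl, rfl⟩, hz⟩, rfl⟩
    refine ⟨y, hy, ?_⟩
    have hz' : inner ℝ (x + l • (y - x)) x = (0 : ℝ) := hz
    rw [inner_add_left, inner_smul_left, inner_sub_left, hxx, conj_trivial] at hz'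
    have hl' : l * (1 - inner ℝ y x) = 1 := by linarith
    have hp := den_pos D hx hy
    change (inner ℝ y w : ℝ) / (1 - inner ℝ y x) = inner ℝ (x + l • (y - x)) w
    rw [inner_add_left, inner_smul_left, inner_sub_left, hxw', conj_trivial, div_eq_iff hp.ne']
    linear_combination (-inner ℝ y w) * hl'
  · rintro ⟨y, hy, rfl⟩
    have hp := den_pos D hx hy
    refine ⟨x + (1 / (1 - inner ℝ y x)) • (y - x), ⟨⟨y, hy, _, by positivity, rfl⟩, ?_⟩, ?_⟩
    · change inner ℝ (x + (1 / (1 - inner ℝ y x)) • (y - x)) x = (0 : ℝ)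
      rw [inner_add_left, inner_smul_left, inner_sub_left, hxx, conj_trivial]
      field_simp
      ring
    · change inner ℝ (x + (1 / (1 - inner ℝ y x)) • (y - x)) w
        = (inner ℝ y w : ℝ) / (1 - inner ℝ y x)
      rw [inner_add_left, inner_smul_left, inner_sub_left, hxw', conj_trivial]
      ring

lemma width_eq {n : ℕ} {K : Set (EuclideanSpace ℝ (Fin n))} {d : ℝ} (D : Data K d)
    {x w : EuclideanSpace ℝ (Fin n)} (hx : ‖x‖ = 1) (hxw : inner ℝ w x = (0 : ℝ)) :
    width (centralProj K x) w = aper K d x w + aper K d x (-w) := by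
  have hcongr : ∀ u : EuclideanSpace ℝ (Fin n),
      aper K d x u = sSup ((fun y => (inner ℝ y u : ℝ) / (1 - inner ℝ y x)) '' K) := by
    intro u
    unfold aper
    congr 1
    apply Set.image_congr
    intro y hy
    rw [den_eq D hx hy]
  unfold width
  rw [image_centralProj D hx hxw, ← hcongr, Real.sInf_def, sub_neg_eq_add, hcongr (-w)]
  congr 2
  ext r
  simp only [Set.mem_neg, Set.mem_image]
  constructor
  · rintro ⟨y, hy, h⟩
    refine ⟨y, hy, ?_⟩
    rw [inner_neg_right, neg_div, h, neg_neg]
  · rintro ⟨y, hy, h⟩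
    refine ⟨y, hy, ?_⟩
    rw [inner_neg_right, neg_div] at h
    linarith

lemma exists_data {n : ℕ} {K : Set (EuclideanSpace ℝ (Fin n))} (hcpt : IsCompact K)
    (hint : (interior K).Nonempty) (hsub : K ⊆ ball 0 1) : ∃ d : ℝ, Data K d := by
  have hne : K.Nonempty := hint.mono interior_subset
  obtain ⟨y₀, hy₀, hmax⟩ := hcpt.exists_isMaxOn hne (f := fun y => ‖y‖) (by fun_prop)
  have h1 : ‖y₀‖ < 1 := by simpa using hsub hy₀
  refine ⟨1 - ‖y₀‖, hcpt, hne, by linarith, ?_, ?_⟩
  · intro y hy
    have : ‖y‖ ≤ ‖y₀‖ := hmax hy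
    linarith
  · intro u hu
    obtain ⟨z, hz⟩ := hint
    rw [mem_interior_iff_mem_nhds, Metric.mem_nhds_iff] at hz
    obtain ⟨ε, hε, hball⟩ := hz
    have hun : 0 < ‖u‖ := norm_pos_iff.2 hu
    set t := ε / 2 / ‖u‖ with ht
    have htpos : 0 < t := by positivity
    have hz : z ∈ K := hball (mem_ball_self hε)
    have hzt : z + t • u ∈ K := by
      apply hball
      rw [mem_ball, dist_eq_norm, add_sub_cancel_left, norm_smul, Real.norm_eq_abs,
        abs_of_pos htpos, ht, div_mul_cancel₀ _ hun.ne']
      linarith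
    have hbdd : ∀ u : EuclideanSpace ℝ (Fin n), BddAbove ((fun y => (inner ℝ y u : ℝ)) '' K) :=
      fun u => (hcpt.image (f := fun y => (inner ℝ y u : ℝ)) (by fun_prop)).bddAbove
    have h2 : inner ℝ (z + t • u) u ≤ supp K u := le_csSup (hbdd u) ⟨_, hzt, rfl⟩
    have h3 : inner ℝ z (-u) ≤ supp K (-u) := le_csSup (hbdd (-u)) ⟨_, hz, rfl⟩
    rw [inner_add_left, inner_smul_left, real_inner_self_eq_norm_sq, conj_trivial] at h2
    rw [inner_neg_right] at h3
    have : 0 < t * ‖u‖ ^ 2 := by positivity
    linarith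

/-- Width form. -/
theorem main {n : ℕ} (hn : 3 ≤ n) {K : Set (EuclideanSpace ℝ (Fin n))} (hconv : Convex ℝ K)
    (hcpt : IsCompact K) (hint : (interior K).Nonempty) (hsub : K ⊆ ball 0 1)
    (hw : ∀ x w : EuclideanSpace ℝ (Fin n), ‖x‖ = 1 → ‖w‖ = 1 → inner ℝ w x = (0 : ℝ) →
      width (centralProj K x) w = width (centralProj K (-x)) w)
    (y : EuclideanSpace ℝ (Fin n)) : y ∈ K ↔ -y ∈ K := by
  obtain ⟨d, D⟩ := exists_data hcpt hint hsub
  have W : Wid K d := by
    intro x w hx hwn hxw
    have h1 := hw x w hx hwn hxw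
    rwa [width_eq D hx hxw, width_eq D (by rw [norm_neg, hx])
      (by rw [inner_neg_right, hxw, neg_zero])] at h1
  have h := odd_zero hn D W
  constructor
  · exact symm_of_supp hconv hcpt.isClosed D h y
  · intro hy
    have := symm_of_supp hconv hcpt.isClosed D h (-y) hy
    rwa [neg_neg] at this

lemma sSup_shift {T : Set ℝ} (hT : T.Nonempty) (hb : BddAbove T) (c : ℝ) :
    sSup ((fun r => r + c) '' T) = sSup T + c := by
  have := (OrderIso.addRight c).map_csSup' hT hb
  simpa using this.symm

lemma sInf_shift {T : Set ℝ} (hT : T.Nonempty) (hb : BddBelow T) (c : ℝ) :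
    sInf ((fun r => r + c) '' T) = sInf T + c := by
  have := (OrderIso.addRight c).map_csInf' hT hb
  simpa using this.symm

/-- The width is invariant under translations and point reflections. -/
lemma width_congr {n : ℕ} (S : Set (EuclideanSpace ℝ (Fin n))) (v w : EuclideanSpace ℝ (Fin n))
    (hS : S.Nonempty) (hbA : BddAbove ((fun z => (inner ℝ z w : ℝ)) '' S))
    (hbB : BddBelow ((fun z => (inner ℝ z w : ℝ)) '' S)) :
    width ((fun z => z + v) '' S) w = width S w ∧ width ((fun z => v - z) '' S) w = width S w := by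
  set T := (fun z => (inner ℝ z w : ℝ)) '' S with hT
  have hTne : T.Nonempty := hS.image _
  constructor
  · have e : (fun z => (inner ℝ z w : ℝ)) '' ((fun z => z + v) '' S)
        = (fun r => r + (inner ℝ v w : ℝ)) '' T := by
      rw [hT, Set.image_image, Set.image_image]
      simp only [inner_add_left]
    unfold width
    rw [e, sSup_shift hTne hbA, sInf_shift hTne hbB]
    ring
  · have e : (fun z => (inner ℝ z w : ℝ)) '' ((fun z => v - z) '' S)
        = (fun r => r + (inner ℝ v w : ℝ)) '' (-T) := by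
      rw [hT, Set.image_image, ← Set.image_neg_eq_neg, Set.image_image, Set.image_image]
      simp only [inner_sub_left]
      apply Set.image_congr
      intro y _
      ring
    unfold width
    rw [e, sSup_shift hTne.neg hbB.neg, sInf_shift hTne.neg hbA.neg, Real.sInf_def (-T), neg_neg,
      ← hT, Real.sInf_def T]
    ring

/-- In dimension `n ≥ 3`, a convex body `K` in the open unit ball is symmetric about the origin
as soon as, for every unit `x`, the central projections of `K` from `x` and `-x` are translates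
of each other, or point reflections of each other, or, more generally, have the same
width in every direction of `x^⊥`. -/
theorem result (n : ℕ) (hn : 3 ≤ n) (K : Set (EuclideanSpace ℝ (Fin n))) (hconv : Convex ℝ K)
    (hcpt : IsCompact K) (hint : (interior K).Nonempty) (hsub : K ⊆ ball 0 1)
    (h : ∀ x : EuclideanSpace ℝ (Fin n), ‖x‖ = 1 →
      (∃ v : EuclideanSpace ℝ (Fin n),
        centralProj K (-x) = (fun z => z + v) '' centralProj K x) ∨
      (∃ v : EuclideanSpace ℝ (Fin n),
        centralProj K (-x) = (fun z => v - z) '' centralProj K x) ∨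
      (∀ w : EuclideanSpace ℝ (Fin n), ‖w‖ = 1 → inner ℝ w x = 0 →
        width (centralProj K x) w = width (centralProj K (-x)) w)) :
    ∀ y : EuclideanSpace ℝ (Fin n), y ∈ K ↔ -y ∈ K := by
  refine main hn hconv hcpt hint hsub ?_
  intro x w hx hw hxw
  obtain ⟨d, D⟩ := exists_data hcpt hint hsub
  have hne : (centralProj K x).Nonempty := by
    obtain ⟨y, hy⟩ := D.ne
    have h1 : ((fun y => (inner ℝ y w : ℝ) / (1 - inner ℝ y x)) '' K).Nonempty := ⟨_, y, hy, rfl⟩
    rw [← image_centralProj D hx hxw] at h1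
    exact Set.image_nonempty.1 h1
  have hA : BddAbove ((fun z => (inner ℝ z w : ℝ)) '' centralProj K x) := by
    rw [image_centralProj D hx hxw]
    refine ⟨aper K d x w, ?_⟩
    rintro _ ⟨y, hy, rfl⟩
    exact aper_le D hx w hy
  have hB : BddBelow ((fun z => (inner ℝ z w : ℝ)) '' centralProj K x) := by
    rw [image_centralProj D hx hxw]
    refine ⟨-aper K d x (-w), ?_⟩
    rintro _ ⟨y, hy, rfl⟩
    have := aper_le D hx (-w) hy
    rw [inner_neg_right, neg_div] at this
    change -aper K d x (-w) ≤ inner ℝ y w / (1 - inner ℝ y x)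
    linarith
  rcases h x hx with ⟨v, hv⟩ | ⟨v, hv⟩ | hv
  · rw [hv]; exact (width_congr (centralProj K x) v w hne hA hB).1.symm
  · rw [hv]; exact (width_congr (centralProj K x) v w hne hA hB).2.symm
  · exact hv w hw hxw

end Pool.H30.CPJ.OldSym
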