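import Pool.Agent.H30.CPJ.Defs
import Pool.Agent.H30.CPJ.OldSym
import Pool.Agent.H30.CPJ.OldBall
import Pool.Agent.H30.CPJ.OldCentre

/-!
# Central projections in a Euclidean space without coordinates
-/

set_option autoImplicit false

open Metric Set MeasureTheory

namespace Pool.H30.CPJ

section
variable {E E' : Type} [NormedAddCommGroup E] [InnerProductSpace ℝ E] [NormedAddCommGroup E']
  [InnerProductSpace ℝ E'] (e : E ≃ₗᵢ[ℝ] E')

theorem cone_map (K : Set E) (x : E) : cone (e '' K) (e x) = e '' cone K x := by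
  ext z
  constructor
  · rintro ⟨_, ⟨y, hy, rfl⟩, l, hl, rfl⟩
    exact ⟨x + l • (y - x), ⟨y, hy, l, hl, rfl⟩, by simp⟩
  · rintro ⟨_, ⟨y, hy, l, hl, rfl⟩, rfl⟩
    exact ⟨e y, ⟨y, hy, rfl⟩, l, hl, by simp⟩

theorem proj_map (K : Set E) (x : E) : centralProj (e '' K) (e x) = e '' centralProj K x := by
  ext z
  constructor
  · rintro ⟨h1, h2⟩
    rw [cone_map] at h1
    obtain ⟨y, hy, rfl⟩ := h1
    refine ⟨y, ⟨hy, ?_⟩, rfl⟩
    have h3 : (inner ℝ (e y) (e x) : ℝ) = 0 := h2
    rw [e.inner_map_map] at h3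
    exact h3
  · rintro ⟨y, ⟨hy, h2⟩, rfl⟩
    refine ⟨by rw [cone_map]; exact ⟨y, hy, rfl⟩, ?_⟩
    show (inner ℝ (e y) (e x) : ℝ) = 0
    rw [e.inner_map_map]
    exact h2

theorem pull_translate {K : Set E} {x : E} {v : E'}
    (h : centralProj (e '' K) (-e x) = (fun z => z + v) '' centralProj (e '' K) (e x)) :
    centralProj K (-x) = (fun z => z + e.symm v) '' centralProj K x := by
  rw [← map_neg, proj_map, proj_map] at h
  apply Set.image_injective.2 e.injective
  rw [h, Set.image_image, Set.image_image]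
  congr 1
  funext z
  simp

theorem pull_reflect {K : Set E} {x : E} {v : E'}
    (h : centralProj (e '' K) (-e x) = (fun z => v - z) '' centralProj (e '' K) (e x)) :
    centralProj K (-x) = (fun z => e.symm v - z) '' centralProj K x := by
  rw [← map_neg, proj_map, proj_map] at h
  apply Set.image_injective.2 e.injective
  rw [h, Set.image_image, Set.image_image]
  congr 1
  funext z
  simp

theorem width_map (S : Set E) (w : E) : width (e '' S) (e w) = width S w := by
  unfold width
  simp only [Set.image_image, e.inner_map_map]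

end

variable {E : Type} [NormedAddCommGroup E] [InnerProductSpace ℝ E]

theorem symmetric [FiniteDimensional ℝ E] (hn : 3 ≤ Module.finrank ℝ E) (K : Set E)
    (hconv : Convex ℝ K) (hcpt : IsCompact K) (hint : (interior K).Nonempty) (hsub : K ⊆ ball 0 1)
    (h : ∀ x : E, ‖x‖ = 1 →
      (∃ v : E, centralProj K (-x) = (fun z => z + v) '' centralProj K x) ∨
      (∃ v : E, centralProj K (-x) = (fun z => v - z) '' centralProj K x) ∨
      (∀ w : E, ‖w‖ = 1 → inner ℝ w x = 0 →
        width (centralProj K x) w = width (centralProj K (-x)) w)) :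
    ∀ y : E, y ∈ K ↔ -y ∈ K := by
  let e : E ≃ₗᵢ[ℝ] EuclideanSpace ℝ (Fin (Module.finrank ℝ E)) := (stdOrthonormalBasis ℝ E).repr
  have key := OldSym.result (Module.finrank ℝ E) hn (e '' K)
    (hconv.linear_image e.toLinearEquiv.toLinearMap) (hcpt.image e.continuous) (by
      have h1 : e '' interior K = interior (e '' K) := e.toHomeomorph.image_interior K
      rw [← h1]
      exact hint.image e) (by
      rintro _ ⟨y, hy, rfl⟩
      rw [mem_ball_zero_iff, e.norm_map]
      exact mem_ball_zero_iff.1 (hsub hy)) (fun x' hx' => by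
      obtain ⟨x, rfl⟩ := e.surjective x'
      rw [e.norm_map] at hx'
      rcases h x hx' with ⟨v, hv⟩ | ⟨v, hv⟩ | hw
      · left
        refine ⟨e v, ?_⟩
        show centralProj (e '' K) (-e x) = (fun z => z + e v) '' centralProj (e '' K) (e x)
        rw [← map_neg, proj_map, proj_map, hv, Set.image_image, Set.image_image]
        simp
      · right; left
        refine ⟨e v, ?_⟩
        show centralProj (e '' K) (-e x) = (fun z => e v - z) '' centralProj (e '' K) (e x)
        rw [← map_neg, proj_map, proj_map, hv, Set.image_image, Set.image_image]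
        simp
      · right; right
        intro w' hw1 hw2
        obtain ⟨w, rfl⟩ := e.surjective w'
        rw [e.norm_map] at hw1
        rw [e.inner_map_map] at hw2
        show width (centralProj (e '' K) (e x)) (e w) = width (centralProj (e '' K) (-e x)) (e w)
        rw [← map_neg, proj_map, proj_map, width_map, width_map]
        exact hw w hw1 hw2)
  intro y
  have h1 := key (e y)
  rw [← map_neg, e.injective.mem_set_image, e.injective.mem_set_image] at h1
  exact h1

/-- the pull back of a body -/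
theorem pull_body {E' : Type} [NormedAddCommGroup E'] [InnerProductSpace ℝ E'] (e : E ≃ₗᵢ[ℝ] E')
    {K : Set E'} (h1 : Convex ℝ K) (h2 : IsCompact K) (h3 : (interior K).Nonempty)
    (h4 : K ⊆ ball 0 1) :
    Convex ℝ (e ⁻¹' K) ∧ IsCompact (e ⁻¹' K) ∧ (interior (e ⁻¹' K)).Nonempty ∧
      e ⁻¹' K ⊆ ball 0 1 := by
  refine ⟨h1.linear_preimage e.toLinearEquiv.toLinearMap, e.toHomeomorph.isCompact_preimage.2 h2,
    ?_, fun x hx => ?_⟩
  · have h5 : e ⁻¹' interior K = interior (e ⁻¹' K) := e.toHomeomorph.preimage_interior K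
    rw [← h5]
    obtain ⟨y, hy⟩ := h3
    exact ⟨e.symm y, by simpa using hy⟩
  · have h5 := h4 hx
    rw [mem_ball_zero_iff, e.norm_map] at h5
    exact mem_ball_zero_iff.2 h5

theorem notBall [FiniteDimensional ℝ E] (hn : 2 ≤ Module.finrank ℝ E) :
    (∀ T : E ≃L[ℝ] E, T '' closedBall 0 1 ⊆ ball 0 1 → ∀ x : E, ‖x‖ = 1 →
      ∃ v : E, inner ℝ v x = 0 ∧ centralProj (T '' closedBall 0 1) (-x) =
        (fun z => z + v) '' centralProj (T '' closedBall 0 1) x) ∧
    ∃ K : Set E, Convex ℝ K ∧ IsCompact K ∧ (interior K).Nonempty ∧ K ⊆ ball 0 1 ∧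
      (∀ x : E, ‖x‖ = 1 → ∃ v : E, inner ℝ v x = 0 ∧
        centralProj K (-x) = (fun z => z + v) '' centralProj K x) ∧
      ¬ ∃ (c : E) (r : ℝ), K = closedBall c r := by
  let e : E ≃ₗᵢ[ℝ] EuclideanSpace ℝ (Fin (Module.finrank ℝ E)) := (stdOrthonormalBasis ℝ E).repr
  obtain ⟨hT, K, h1, h2, h3, h4, h5, h6⟩ := OldBall.result (Module.finrank ℝ E) hn
  constructor
  · intro T hTs x hx
    have hTe : (e.symm.toContinuousLinearEquiv.trans (T.trans e.toContinuousLinearEquiv)) ''
        closedBall 0 1 = e '' (T '' closedBall 0 1) := by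
      have h7 : (closedBall 0 1 : Set (EuclideanSpace ℝ (Fin (Module.finrank ℝ E)))) =
          e '' closedBall 0 1 := by
        rw [e.image_closedBall, map_zero]
      rw [h7, Set.image_image, Set.image_image]
      congr 1
      funext z
      simp
    obtain ⟨v, hv1, hv2⟩ := hT (e.symm.toContinuousLinearEquiv.trans
      (T.trans e.toContinuousLinearEquiv)) (by
        rw [hTe]
        rintro _ ⟨y, hy, rfl⟩
        rw [mem_ball_zero_iff, e.norm_map]
        exact mem_ball_zero_iff.1 (hTs hy)) (e x) (by rw [e.norm_map]; exact hx)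
    rw [hTe] at hv2
    refine ⟨e.symm v, ?_, pull_translate e hv2⟩
    rw [← e.inner_map_map, e.apply_symm_apply]
    exact hv1
  · obtain ⟨g1, g2, g3, g4⟩ := pull_body e h1 h2 h3 h4
    have hK : e '' (e ⁻¹' K) = K := Set.image_preimage_eq _ e.surjective
    refine ⟨e ⁻¹' K, g1, g2, g3, g4, fun x hx => ?_, ?_⟩
    · obtain ⟨v, hv1, hv2⟩ := h5 (e x) (by rw [e.norm_map]; exact hx)
      refine ⟨e.symm v, ?_, pull_translate e (by rw [hK]; exact hv2)⟩
      rw [← e.inner_map_map, e.apply_symm_apply]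
      exact hv1
    · rintro ⟨c, r, hcr⟩
      apply h6
      refine ⟨e c, r, ?_⟩
      rw [← e.image_closedBall, ← hcr, hK]

theorem noCentre [MeasurableSpace E] [BorelSpace E] (hn : Module.finrank ℝ E = 2) :
    ∃ K : Set E, Convex ℝ K ∧ IsCompact K ∧ (interior K).Nonempty ∧ K ⊆ ball 0 1 ∧
      (∀ x : E, ‖x‖ = 1 →
        (∃ v : E, inner ℝ v x = 0 ∧ centralProj K (-x) = (fun z => z + v) '' centralProj K x) ∧
        μH[1] (centralProj K (-x)) = μH[1] (centralProj K x)) ∧
      ¬ ∃ c : E, ∀ y : E, y ∈ K ↔ (2 : ℝ) • c - y ∈ K := by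
  have : FiniteDimensional ℝ E := Module.finite_of_finrank_eq_succ hn
  let e : E ≃ₗᵢ[ℝ] EuclideanSpace ℝ (Fin 2) :=
    ((stdOrthonormalBasis ℝ E).reindex (finCongr hn)).repr
  obtain ⟨K, h1, h2, h3, h4, h5, h6⟩ := OldCentre.result
  obtain ⟨g1, g2, g3, g4⟩ := pull_body e h1 h2 h3 h4
  have hK : e '' (e ⁻¹' K) = K := Set.image_preimage_eq _ e.surjective
  refine ⟨e ⁻¹' K, g1, g2, g3, g4, fun x hx => ?_, ?_⟩
  · obtain ⟨v, hv1, hv2⟩ := (h5 (e x) (by rw [e.norm_map]; exact hx)).1
    have ht := pull_translate e (K := e ⁻¹' K) (x := x) (v := v) (by rw [hK]; exact hv2)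
    refine ⟨⟨e.symm v, ?_, ht⟩, ?_⟩
    · rw [← e.inner_map_map, e.apply_symm_apply]
      exact hv1
    · rw [ht]
      exact (IsometryEquiv.addRight (e.symm v)).hausdorffMeasure_image 1 _
  · rintro ⟨c, hc⟩
    apply h6
    refine ⟨e c, fun y => ?_⟩
    have h7 := hc (e.symm y)
    simpa using h7

end Pool.H30.CPJ
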