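import Mathlib

/-!
# Central projections: definitions

`E` is a Euclidean space: a finite-dimensional real vector space with an inner product.
-/

set_option autoImplicit false

namespace Pool.H30.CPJ

variable {E : Type} [NormedAddCommGroup E] [InnerProductSpace ℝ E]

/-- The cone `C(K,x) = {x + l (y - x) : y ∈ K, l ≥ 0}` with apex `x` generated by `K`. -/
def cone (K : Set E) (x : E) : Set E :=
  {z | ∃ y ∈ K, ∃ l : ℝ, 0 ≤ l ∧ z = x + l • (y - x)}

/-- The central projection `C(K,x) ∩ x^⊥` of `K` from `x`. -/
def centralProj (K : Set E) (x : E) : Set E :=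
  cone K x ∩ {z | inner ℝ z x = 0}

/-- The width of `S` in the direction `w`: the length of the image of `S` under `⟪·, w⟫`. -/
noncomputable def width (S : Set E) (w : E) : ℝ :=
  sSup ((fun z => (inner ℝ z w : ℝ)) '' S) - sInf ((fun z => (inner ℝ z w : ℝ)) '' S)

end Pool.H30.CPJ
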